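import Mathlib
import Pool.Agent.H60.Q1.Corn.Sym

set_option autoImplicit false
open Finset

/-! # Quadrants of the tile frame, all orientations

`cr k v` : coordinate of `v` along `dir k` in the tile frame. The quadrant `k` at `w` is
`cr k w ≤ cr k v`, `cr (k+1) w ≤ cr (k+1) v`; its side `cr (k+1) = cr (k+1) w` is free, its side
`cr k = cr k w` is wired. -/

namespace Pool.Agent.H42.FM

open Pool.Agent.H75.Perc Pool.Agent.H75.TwoArm Pool.Agent.H75.Four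
open Pool.Agent.H60.Q1 Pool.Agent.H60.Q1.Corn Pool.Agent.H99.NC

/-- coordinate along `dir k` in the tile frame -/
def cr (k : ℤ) (v : ℤ × ℤ) : ℤ := (v.1 + v.2) * (dir k).1 + (v.2 - v.1) * (dir k).2

/-- labels of the quadrant -/
def dK (k : ℤ) (w l : ℤ × ℤ) : Prop := 2 * cr k w ≤ cr k l ∧ 2 * cr (k + 1) w ≤ cr (k + 1) l

/-- the wired side is excluded -/
def PK (k : ℤ) (w v : ℤ × ℤ) : Prop := cr k w < cr k v

/-- the point at tile distance `2 j` of `w` on the free side -/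
def pk (k : ℤ) (w : ℤ × ℤ) (j : ℤ) : ℤ × ℤ :=
  (w.1 + j * ((dir k).1 + (dir (k + 1)).1), w.2 + j * ((dir k).2 + (dir (k + 1)).2))

/-- both coordinates, by cases -/
lemma cr_all (k : ℤ) :
    ((dir k = (1, 0) ∧ dir (k + 1) = (0, 1)) ∧ (∀ v, cr k v = v.1 + v.2) ∧
      ∀ v, cr (k + 1) v = v.2 - v.1) ∨
    ((dir k = (0, 1) ∧ dir (k + 1) = (-1, 0)) ∧ (∀ v, cr k v = v.2 - v.1) ∧
      ∀ v, cr (k + 1) v = -(v.1 + v.2)) ∨
    ((dir k = (-1, 0) ∧ dir (k + 1) = (0, -1)) ∧ (∀ v, cr k v = -(v.1 + v.2)) ∧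
      ∀ v, cr (k + 1) v = v.1 - v.2) ∨
    ((dir k = (0, -1) ∧ dir (k + 1) = (1, 0)) ∧ (∀ v, cr k v = v.1 - v.2) ∧
      ∀ v, cr (k + 1) v = v.1 + v.2) := by
  unfold cr
  rcases dir_cases k with ⟨a, e⟩ | ⟨a, e⟩ | ⟨a, e⟩ | ⟨a, e⟩ <;>
  rcases dir_cases (k + 1) with ⟨b, f⟩ | ⟨b, f⟩ | ⟨b, f⟩ | ⟨b, f⟩ <;>
  first
  | (exfalso; omega)
  | skip
  · exact Or.inl ⟨⟨e, f⟩, fun v => by rw [e]; ring, fun v => by rw [f]; ring⟩
  · exact Or.inr (Or.inl ⟨⟨e, f⟩, fun v => by rw [e]; ring, fun v => by rw [f]; ring⟩)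
  · exact Or.inr (Or.inr (Or.inl ⟨⟨e, f⟩, fun v => by rw [e]; ring, fun v => by rw [f]; ring⟩))
  · exact Or.inr (Or.inr (Or.inr ⟨⟨e, f⟩, fun v => by rw [e]; ring, fun v => by rw [f]; ring⟩))

lemma cr_add (k : ℤ) (u v : ℤ × ℤ) : cr k (u + v) = cr k u + cr k v := by
  unfold cr
  simp only [Prod.fst_add, Prod.snd_add]
  ring

lemma cr_unit (k : ℤ) {u v : ℤ × ℤ} (h : IsUnit4 (v - u)) :
    (cr k v = cr k u + 1 ∨ cr k v = cr k u - 1) ∧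
    (cr (k + 1) v = cr (k + 1) u + 1 ∨ cr (k + 1) v = cr (k + 1) u - 1) := by
  have h1 := unit_cases h
  rcases cr_all k with ⟨-, e, f⟩ | ⟨-, e, f⟩ | ⟨-, e, f⟩ | ⟨-, e, f⟩ <;> rw [e, e, f, f] <;> omega

/-- the box norm is half the sum of the two coordinates -/
lemma cr_box (k : ℤ) (w v : ℤ × ℤ) (R : ℤ) : (|v.1 - w.1| ≤ R ∧ |v.2 - w.2| ≤ R) ↔
    |cr k v - cr k w| + |cr (k + 1) v - cr (k + 1) w| ≤ 2 * R := by
  rcases cr_all k with ⟨-, e, f⟩ | ⟨-, e, f⟩ | ⟨-, e, f⟩ | ⟨-, e, f⟩ <;> rw [e, e, f, f] <;>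
  · rw [abs_le, abs_le]
    constructor
    · intro h
      rcases abs_cases (v.1 - w.1) with a | a <;>
      rcases abs_cases (v.2 - w.2) with b | b <;>
      · simp only [abs_eq_max_neg]
        omega
    · intro h
      simp only [abs_eq_max_neg] at h
      omega

lemma pk_cr (k : ℤ) (w : ℤ × ℤ) (j : ℤ) : cr k (pk k w j) = cr k w + 2 * j ∧
    cr (k + 1) (pk k w j) = cr (k + 1) w := by
  unfold pk
  rcases cr_all k with ⟨⟨a, b⟩, e, f⟩ | ⟨⟨a, b⟩, e, f⟩ | ⟨⟨a, b⟩, e, f⟩ | ⟨⟨a, b⟩, e, f⟩ <;>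
  rw [e, e, f, f, a, b] <;> simp only <;> omega

lemma dK_iff (k : ℤ) : ∃ e f : ℤ, (e = 1 ∨ e = -1) ∧ (f = 1 ∨ f = -1) ∧
    (∀ w l, dK k w l ↔ dQ e f w l) ∧
    ((∀ w v, PK k w v ↔ PQ1 f w v) ∨ (∀ w v, PK k w v ↔ PQ2 e w v)) := by
  unfold dK PK dQ PQ1 PQ2
  rcases cr_all k with ⟨-, e, f⟩ | ⟨-, e, f⟩ | ⟨-, e, f⟩ | ⟨-, e, f⟩
  · refine ⟨1, 1, Or.inl rfl, Or.inl rfl, fun w l => ?_, Or.inr fun w v => ?_⟩
    · rw [e, e, f, f]; omega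
    · rw [e, e]; omega
  · refine ⟨-1, 1, Or.inr rfl, Or.inl rfl, fun w l => ?_, Or.inl fun w v => ?_⟩
    · rw [e, e, f, f]; omega
    · rw [e, e]; omega
  · refine ⟨-1, -1, Or.inr rfl, Or.inr rfl, fun w l => ?_, Or.inr fun w v => ?_⟩
    · rw [e, e, f, f]; omega
    · rw [e, e]; omega
  · refine ⟨1, -1, Or.inl rfl, Or.inr rfl, fun w l => ?_, Or.inl fun w v => ?_⟩
    · rw [e, e, f, f]; omega
    · rw [e, e]; omega

/-- **three strands at the mark, all orientations** -/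
theorem mark_le : ∃ C α : ℝ, 0 < C ∧ 0 < α ∧ ∀ (k : ℤ) (w : ℤ × ℤ) (ρ R : ℤ), 1 ≤ ρ → ρ ≤ R →
    ug (PK k) (dK k) w ρ R ≤ C * ((ρ : ℝ) / R) ^ (1 + α) := by
  obtain ⟨C, α, hC, hα, h⟩ := corner_mark
  refine ⟨C, α, hC, hα, fun k w ρ R h1 h2 => ?_⟩
  obtain ⟨e, f, he, hf', hd, hP⟩ := dK_iff k
  have hd' : dK k = dQ e f := by
    funext w l; exact propext (hd w l)
  rcases hP with hP | hP
  · have hP' : PK k = PQ1 f := by
      funext w v; exact propext (hP w v)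
    rw [hd', hP']
    exact (h e f he hf' w ρ R h1 h2).1
  · have hP' : PK k = PQ2 e := by
      funext w v; exact propext (hP w v)
    rw [hd', hP']
    exact (h e f he hf' w ρ R h1 h2).2

end Pool.Agent.H42.FM
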