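import Mathlib
import Pool.Agent.H42.FM.Cr

set_option autoImplicit false
open Finset

/-! # The gluing bound at the mark

`x = pk k w j` is a wall point of the free side at distance `j` of the mark `w`. Given that `x` is
connected to distance `3 (j/3)`, it is connected to the wired side with probability bounded below. -/

namespace Pool.Agent.H42.FM

open Pool.Agent.H75.Perc Pool.Agent.H75.TwoArm Pool.Agent.H75.Four
open Pool.Agent.H60.Q1 Pool.Agent.H60.Q1.Corn Pool.Agent.H99.NC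
open Pool.Agent.H20.Q1 (BR_mono BR_ends BR_of_ends)

/-- labels of the quadrant in the box of radius `R` -/
noncomputable def QB (k : ℤ) (w : ℤ × ℤ) (R : ℤ) : Finset (ℤ × ℤ) := by
  classical exact (BR w R).filter (dK k w)

/-- labels of the half plane above the free side, box around `x` -/
noncomputable def HB (k : ℤ) (x : ℤ × ℤ) (m : ℤ) : Finset (ℤ × ℤ) := by
  classical exact (BR x m).filter fun l => 2 * cr (k + 1) x ≤ cr (k + 1) l

lemma mem_QB {k : ℤ} {w : ℤ × ℤ} {R : ℤ} {l : ℤ × ℤ} : l ∈ QB k w R ↔ l ∈ BR w R ∧ dK k w l := by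
  classical
  unfold QB
  rw [mem_filter]

lemma mem_HB {k : ℤ} {x : ℤ × ℤ} {m : ℤ} {l : ℤ × ℤ} : l ∈ HB k x m ↔
    l ∈ BR x m ∧ 2 * cr (k + 1) x ≤ cr (k + 1) l := by
  classical
  unfold HB
  rw [mem_filter]

lemma mem_BR {w : ℤ × ℤ} {R : ℤ} {l : ℤ × ℤ} : l ∈ BR w R ↔
    (2 * (w.1 - R) ≤ l.1 ∧ l.1 ≤ 2 * (w.1 + R)) ∧ (2 * (w.2 - R) ≤ l.2 ∧ l.2 ≤ 2 * (w.2 + R)) ∧
      (l.1 + l.2) % 2 = 1 := by
  unfold BR
  rw [mem_Bx]

/-- `x` is connected to the wired side inside the box -/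
def XE (k : ℤ) (w : ℤ × ℤ) (j R : ℤ) (ω : Finset (ℤ × ℤ)) : Prop :=
  ∃ y, cr k y = cr k w ∧ Co (ω ∩ QB k w R) (pk k w j) y

/-- `x` is connected to distance `m` -/
def AE (k : ℤ) (x : ℤ × ℤ) (m : ℤ) (ω : Finset (ℤ × ℤ)) : Prop :=
  ∃ y, Far x m y ∧ Co (ω ∩ HB k x m) x y

/-- a quarter ring ending near `x` -/
def QR (k : ℤ) (w : ℤ × ℤ) (j R s : ℤ) (ω : Finset (ℤ × ℤ)) : Prop :=
  ∃ q y, Near (pk k w j) s q ∧ cr (k + 1) q = cr (k + 1) w ∧ cr k y = cr k w ∧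
    Co (ω ∩ QB k w R) q y

lemma XE_inc (k : ℤ) (w : ℤ × ℤ) (j R : ℤ) : Inc (XE k w j R) := by
  rintro ω ω' h ⟨y, h1, h2⟩
  exact ⟨y, h1, h2.mono (inter_subset_inter_right h)⟩

lemma AE_inc (k : ℤ) (x : ℤ × ℤ) (m : ℤ) : Inc (AE k x m) := by
  rintro ω ω' h ⟨y, h1, h2⟩
  exact ⟨y, h1, h2.mono (inter_subset_inter_right h)⟩

lemma QR_inc (k : ℤ) (w : ℤ × ℤ) (j R s : ℤ) : Inc (QR k w j R s) := by
  rintro ω ω' h ⟨q, y, h1, h2, h3, h4⟩
  exact ⟨q, y, h1, h2, h3, h4.mono (inter_subset_inter_right h)⟩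

lemma QR_local {k : ℤ} {w : ℤ × ℤ} {j R s : ℤ} {ω : Finset (ℤ × ℤ)} :
    QR k w j R s ω ↔ QR k w j R s (ω ∩ QB k w R) := by
  unfold QR
  rw [inter_assoc, inter_self]

lemma HB_sub {k : ℤ} {w : ℤ × ℤ} {j m R : ℤ} (hm : m ≤ j) (hR : j + m ≤ R) :
    HB k (pk k w j) m ⊆ QB k w R := by
  intro l hl
  rw [mem_HB, mem_BR] at hl
  rw [mem_QB, mem_BR]
  unfold dK
  unfold pk at hl
  rcases cr_all k with ⟨⟨a, b⟩, e, f⟩ | ⟨⟨a, b⟩, e, f⟩ | ⟨⟨a, b⟩, e, f⟩ | ⟨⟨a, b⟩, e, f⟩ <;>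
  · rw [f, f, a, b] at hl
    rw [e, e, f, f]
    simp only at hl
    omega

section model

variable {k : ℤ} {w : ℤ × ℤ} {j R s a : ℤ} {ω : Finset (ℤ × ℤ)}

/-- a vertical crossing of a thin box gives a quarter ring -/
lemma QR_of (ea : dir k = (0, -1)) (eb : dir (k + 1) = (1, 0)) (e : ∀ v, cr k v = v.1 - v.2)
    (f : ∀ v, cr (k + 1) v = v.1 + v.2) (_ : 0 ≤ s) (hsj : s < j) (hR : j ≤ R)
    (h : VC (w.1 + j - s) (w.1 + j) (w.2 - j) (w.2 + j) ω) : QR k w j R s ω := by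
  obtain ⟨p, q, hp, hp2, hq2, hpq⟩ := h
  set B := Bx (w.1 + j - s) (w.1 + j) (w.2 - j) (w.2 + j) with hB
  have hX : CoX (ω ∩ B) (inB (w.1 + j - s) (w.1 + j) (w.2 - j) (w.2 + j)) p q := by
    refine Relation.ReflTransGen.head_induction_on hpq Relation.ReflTransGen.refl ?_
    intro u v huv _ ih
    refine Relation.ReflTransGen.head ⟨huv, ?_⟩ ih
    have h1 := unit_cases huv.1
    have h2 := (mem_inter.1 huv.2).2
    rw [hB, mem_Bx] at h2
    simp only [Prod.fst_add, Prod.snd_add] at h2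
    unfold inB
    omega
  have hqB := CoX.mem hX hp
  unfold inB at hp hqB
  have hX' := CoX.symm hX (by unfold inB; exact hp)
  obtain ⟨z, z', h1, h2, h3, h4, h5⟩ := exit_cox
    (Y := fun v => w.1 + w.2 + 1 ≤ v.1 + v.2) hX' (by omega) (by omega)
  have hu := unit_cases h4.1
  unfold inB at h3
  have hz' : z'.1 + z'.2 = w.1 + w.2 := by omega
  have hzX := CoX.mem (X := fun v => (inB (w.1 + j - s) (w.1 + j) (w.2 - j) (w.2 + j)) v ∧
    w.1 + w.2 + 1 ≤ v.1 + v.2) h5 ⟨by unfold inB; exact hqB, by omega⟩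
  have h6 : CoX (ω ∩ B) (fun v => inB (w.1 + j - s) (w.1 + j) (w.2 - j) (w.2 + j) v ∧
      w.1 + w.2 ≤ v.1 + v.2) z' q := by
    refine Relation.ReflTransGen.head ⟨h4.symm, hzX.1, by omega⟩ ?_
    exact (CoX.symm h5 ⟨by unfold inB; exact hqB, by omega⟩).mono2 fun v hv => ⟨hv.1, by omega⟩
  obtain ⟨t, t', g1, g2, g3, g4, g5⟩ := exit_cox
    (Y := fun v => w.1 - w.2 + 1 ≤ v.1 - v.2) h6 (by omega) (by omega)
  have hu' := unit_cases g4.1
  have ht' : t'.1 - t'.2 = w.1 - w.2 := by omega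
  have key : CoX (ω ∩ B) (fun v => w.1 + w.2 ≤ v.1 + v.2 ∧ w.1 - w.2 ≤ v.1 - v.2) z' t' := by
    refine Relation.ReflTransGen.tail (g5.mono2 fun v hv => ⟨hv.1.2, by omega⟩)
      ⟨g4, g3.2, by omega⟩
  have hBQ : ∀ l ∈ B, l ∈ BR w R := by
    intro l hl
    rw [hB, mem_Bx] at hl
    rw [mem_BR]
    omega
  have fin : ∀ y, CoX (ω ∩ B) (fun v => w.1 + w.2 ≤ v.1 + v.2 ∧ w.1 - w.2 ≤ v.1 - v.2) z' y →
      Co (ω ∩ QB k w R) z' y ∧ (w.1 + w.2 ≤ y.1 + y.2 ∧ w.1 - w.2 ≤ y.1 - y.2) := by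
    intro y hy
    induction hy with
    | refl => exact ⟨Co.refl _ _, by omega, by omega⟩
    | @tail b c _ hbc ih =>
      obtain ⟨i1, i2⟩ := mem_inter.1 hbc.1.2
      refine ⟨ih.1.tail ⟨hbc.1.1, mem_inter.2 ⟨i1, mem_QB.2 ⟨hBQ _ i2, ?_⟩⟩⟩, hbc.2⟩
      have i3 := ih.2
      have i4 := hbc.2
      unfold dK
      rw [e, e, f, f]
      simp only [Prod.fst_add, Prod.snd_add]
      omega
  refine ⟨z', t', ?_, ?_, ?_, (fin _ key).1⟩
  · unfold Near pk
    rw [ea, eb, abs_le, abs_le]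
    simp only
    omega
  · rw [f, f]; exact hz'
  · rw [e, e]; exact ht'

/-- probability of the quarter ring -/
theorem QR_prob : ∃ c : ℝ, 0 < c ∧ ∀ (k : ℤ) (w : ℤ × ℤ) (j R s : ℤ),
    dir k = (0, -1) → dir (k + 1) = (1, 0) → (∀ v, cr k v = v.1 - v.2) →
    (∀ v, cr (k + 1) v = v.1 + v.2) → 0 ≤ s → s < j → j ≤ 5 * (s + 1) → j ≤ R →
    c ≤ PrP hf (QB k w R) (QR k w j R s) := by
  obtain ⟨c, hc, h⟩ := rsw_q 10
  refine ⟨c, hc, fun k w j R s ea eb e f hs hsj hj hR => ?_⟩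
  have e1 : PrP hf (QB k w R ∪ Bx (w.1 + j - s) (w.1 + j) (w.2 - j) (w.2 + j)) (QR k w j R s) =
      PrP hf (QB k w R) (QR k w j R s) :=
    PrP_local subset_union_left fun ω _ => QR_local
  rw [← e1]
  have h1 := (h hf hf_Qh (QB k w R ∪ Bx (w.1 + j - s) (w.1 + j) (w.2 - j) (w.2 + j))
    (w.1 + j - s) (w.1 + j) (w.2 - j) (w.2 + j)
    (by omega) (by omega) subset_union_right).2
  have h2 := h1 (by push_cast; omega)
  refine h2.trans (PrP_mono hf_Pb fun ω _ hω => ?_)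
  exact QR_of ea eb e f hs hsj hR hω

/-- the three pieces together -/
lemma XE_of (ea : dir k = (0, -1)) (eb : dir (k + 1) = (1, 0)) (e : ∀ v, cr k v = v.1 - v.2)
    (f : ∀ v, cr (k + 1) v = v.1 + v.2) (ha : 2 ≤ a) (haj : 3 * a ≤ j) (hR : 2 * j ≤ R)
    (h1 : AE k (pk k w j) (3 * a) ω) (h2 : RO 1 (pk k w j) (a - 1) (3 * a) (3 * a) ω)
    (h3 : QR k w j R (a - 1) ω) : XE k w j R ω := by
  obtain ⟨v, hv, hxv⟩ := h1
  obtain ⟨p, p', hp, hp', -, -, hpp⟩ := h2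
  obtain ⟨q, y, hq, hq2, hy, hqy⟩ := h3
  set x := pk k w j with hx
  have hxc : x = (w.1 + j, w.2 - j) := by
    rw [hx]
    unfold pk
    rw [ea, eb]
    refine Prod.ext ?_ ?_ <;> simp <;> ring
  have hx1 : x.1 = w.1 + j := by rw [hxc]
  have hx2 : x.2 = w.2 - j := by rw [hxc]
  set η := ω ∩ QB k w R with hη
  have hηh : ∀ l ∈ η, 2 * ht 1 x ≤ ht 1 l := by
    intro l hl
    have g := (mem_QB.1 (mem_inter.1 hl).2).2.2
    rw [f, f] at g
    unfold ht
    omega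
  have hsub : ω ∩ AL 1 x (a - 1) (3 * a) ⊆ η ∩ AL 1 x (a - 1) (3 * a) := by
    intro l hl
    obtain ⟨g1, g2⟩ := mem_inter.1 hl
    refine mem_inter.2 ⟨mem_inter.2 ⟨g1, mem_QB.2 ⟨?_, ?_⟩⟩, g2⟩
    · rw [mem_AL] at g2
      rw [mem_BR]
      omega
    · rw [mem_AL] at g2
      unfold dK
      rw [e, e, f, f]
      omega
  have hpp' : Co (η ∩ AL 1 x (a - 1) (3 * a)) p p' := hpp.mono hsub
  have hxv' : Co η x v := hxv.mono (inter_subset_inter_left (HB_sub haj (by omega)))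
  have c1 := RO_meet (Or.inr rfl) (show (1 : ℤ) ≤ a - 1 by omega) (show a - 1 < 3 * a by omega) hηh
    hp hp' hpp' (u := x) (v := v) (by unfold Near; simp; omega) hv hxv'
  have hfar : Far x (3 * a) y := by
    rcases eq_or_ne q y with rfl | hne
    · exfalso
      unfold Near at hq
      rw [abs_le, abs_le] at hq
      rw [e, e] at hy
      rw [f, f] at hq2
      omega
    · -- `y` is on the wired side, above the corner
      have g1 : cr (k + 1) w ≤ cr (k + 1) y := by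
        rcases Relation.ReflTransGen.cases_tail hqy with h | ⟨c, -, h⟩
        · exact absurd h.symm hne
        · have i1 := (mem_QB.1 (mem_inter.1 h.2).2).2.2
          rw [cr_add] at i1
          have i2 := (cr_unit k h.1).2
          omega
      rw [f, f] at g1
      rw [e, e] at hy
      unfold Far
      rw [le_abs, le_abs]
      omega
  have c2 := RO_meet (Or.inr rfl) (show (1 : ℤ) ≤ a - 1 by omega) (show a - 1 < 3 * a by omega) hηh
    hp hp' hpp' (u := q) (v := y) hq hfar hqy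
  exact ⟨y, hy, (c1.trans c2.symm).trans hqy⟩

end model

/-- **gluing, model orientation** -/
theorem glue3 : ∃ c : ℝ, 0 < c ∧ ∀ (k : ℤ) (w : ℤ × ℤ) (j R : ℤ),
    dir k = (0, -1) → dir (k + 1) = (1, 0) → (∀ v, cr k v = v.1 - v.2) →
    (∀ v, cr (k + 1) v = v.1 + v.2) → 1 ≤ j → 2 * j ≤ R →
    c * PrP hf (QB k w R) (AE k (pk k w j) (3 * (j / 3))) ≤ PrP hf (QB k w R) (XE k w j R) := by
  obtain ⟨c1, hc1, hr⟩ := RO_prob
  obtain ⟨c2, hc2, hq⟩ := QR_prob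
  refine ⟨min c2 (c1 * c2), by positivity, fun k w j R ea eb e f hj hR => ?_⟩
  have hA0 := PrP_nonneg hf_Pb (QB k w R) (AE k (pk k w j) (3 * (j / 3)))
  have hA1 := PrP_le_one hf_Pb (QB k w R) (AE k (pk k w j) (3 * (j / 3)))
  by_cases h6 : j < 6
  · have h1 := hq k w j R 0 ea eb e f le_rfl (by omega) (by omega) (by omega)
    have h2 : PrP hf (QB k w R) (QR k w j R 0) ≤ PrP hf (QB k w R) (XE k w j R) := by
      refine PrP_mono hf_Pb fun ω _ hω => ?_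
      obtain ⟨q, y, g1, g2, g3, g4⟩ := hω
      have : q = pk k w j := by
        unfold Near at g1
        rw [abs_le, abs_le] at g1
        refine Prod.ext ?_ ?_ <;> omega
      rw [this] at g4
      exact ⟨y, g3, g4⟩
    calc min c2 (c1 * c2) * PrP hf (QB k w R) (AE k (pk k w j) (3 * (j / 3)))
        ≤ min c2 (c1 * c2) * 1 := by
          refine mul_le_mul_of_nonneg_left hA1 (by positivity)
      _ ≤ c2 := by rw [mul_one]; exact min_le_left _ _
      _ ≤ _ := h1.trans h2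
  · set a := j / 3 with ha
    have ha2 : 2 ≤ a := by omega
    have haj : 3 * a ≤ j := by omega
    have h1 := hq k w j R (a - 1) ea eb e f (by omega) (by omega) (by omega) (by omega)
    have h2 := hr hf hf_Qh 1 (Or.inr rfl) (pk k w j) (a - 1) (3 * a) a (QB k w R) (by omega)
      (by omega) le_rfl (by
        intro l hl
        rw [mem_AL] at hl
        unfold pk at hl
        rw [ea, eb] at hl
        simp only at hl
        rw [mem_QB, mem_BR]
        unfold dK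
        rw [e, e, f, f]
        omega)
    have e1 := PrP_harris hf_Pb (QB k w R) (RO_inc (κ := 1) (z := pk k w j) (ρ := a - 1)
      (R := 3 * a) (M := 3 * a)) (QR_inc k w j R (a - 1))
    have e2 := PrP_harris hf_Pb (QB k w R) (AE_inc k (pk k w j) (3 * a))
      (Inc.and (RO_inc (κ := 1) (z := pk k w j) (ρ := a - 1)
      (R := 3 * a) (M := 3 * a)) (QR_inc k w j R (a - 1)))
    have e3 := (mul_le_mul h2 h1 hc2.le (hc1.le.trans h2)).trans e1
    calc min c2 (c1 * c2) * PrP hf (QB k w R) (AE k (pk k w j) (3 * a))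
        ≤ (c1 * c2) * PrP hf (QB k w R) (AE k (pk k w j) (3 * a)) :=
          mul_le_mul_of_nonneg_right (min_le_right _ _) hA0
      _ = PrP hf (QB k w R) (AE k (pk k w j) (3 * a)) * (c1 * c2) := by ring
      _ ≤ _ := mul_le_mul_of_nonneg_left e3 hA0
      _ ≤ _ := e2
      _ ≤ _ := PrP_mono hf_Pb fun ω _ hω => XE_of ea eb e f ha2 haj hR hω.1 hω.2.1 hω.2.2

end Pool.Agent.H42.FM
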