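import Mathlib
import Pool.Agent.H42.FM.Glue

set_option autoImplicit false
open Finset

/-! # The gluing bound, all orientations -/

namespace Pool.Agent.H42.FM

open Pool.Agent.H75.Perc Pool.Agent.H75.TwoArm Pool.Agent.H75.Four
open Pool.Agent.H60.Q1 Pool.Agent.H60.Q1.Corn Pool.Agent.H99.NC

/-- rotation by a right angle -/
def syR : Sy where
  g u := (-u.2, u.1)
  g' u := (u.2, -u.1)
  G := ⟨fun e => (-e.2, e.1), by
    intro a b h
    have h1 := congrArg Prod.fst h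
    have h2 := congrArg Prod.snd h
    simp only at h1 h2
    exact Prod.ext (by omega) (by omega)⟩
  G' e := (e.2, -e.1)
  gg' u := by simp
  g'g u := by simp
  GG' e := by simp
  add u v := by
    refine Prod.ext ?_ ?_ <;>
    simp only [Function.Embedding.coeFn_mk, Prod.fst_add, Prod.snd_add]
    ring
  unit u v := by
    constructor
    · intro h
      have h1 := unit_cases h
      unfold IsUnit4
      simp only [Prod.ext_iff, Prod.fst_sub, Prod.snd_sub]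
      omega
    · intro h
      have h1 := unit_cases h
      simp only at h1
      unfold IsUnit4
      simp only [Prod.ext_iff, Prod.fst_sub, Prod.snd_sub]
      omega

lemma syR_g (v : ℤ × ℤ) : syR.g v = (-v.2, v.1) := rfl

lemma syR_G' (v : ℤ × ℤ) : syR.G' v = (v.2, -v.1) := rfl

lemma dir_rot (k : ℤ) : dir (k + 1) = (-(dir k).2, (dir k).1) := by
  rcases cr_all k with ⟨⟨a, b⟩, -⟩ | ⟨⟨a, b⟩, -⟩ | ⟨⟨a, b⟩, -⟩ | ⟨⟨a, b⟩, -⟩ <;> rw [b, a] <;> simp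

lemma cr_rot (k : ℤ) (v : ℤ × ℤ) : cr (k + 1) (syR.g v) = cr k v := by
  rw [syR_g]
  unfold cr
  rw [dir_rot k]
  simp only
  ring

lemma cr_rot' (k : ℤ) (l : ℤ × ℤ) : cr k (syR.G' l) = cr (k + 1) l := by
  rw [syR_G']
  unfold cr
  rw [dir_rot k]
  simp only
  ring

variable {k : ℤ} {w x : ℤ × ℤ} {j R m : ℤ} {ω : Finset (ℤ × ℤ)}

lemma pk_rot : pk (k + 1) (syR.g w) j = syR.g (pk k w j) := by
  rw [syR_g, syR_g]
  unfold pk
  rw [dir_rot (k + 1), dir_rot k]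
  refine Prod.ext ?_ ?_ <;> simp only <;> ring

lemma BR_rot (e : ℤ × ℤ) : e ∈ BR (syR.g w) R ↔ syR.G' e ∈ BR w R := by
  rw [mem_BR, mem_BR, syR_g, syR_G']
  simp only
  omega

lemma QB_rot (e : ℤ × ℤ) : e ∈ QB (k + 1) (syR.g w) R ↔ syR.G' e ∈ QB k w R := by
  rw [mem_QB, mem_QB, BR_rot]
  unfold dK
  rw [cr_rot, cr_rot, cr_rot', cr_rot']

lemma HB_rot (e : ℤ × ℤ) : e ∈ HB (k + 1) (syR.g x) m ↔ syR.G' e ∈ HB k x m := by
  rw [mem_HB, mem_HB, BR_rot, cr_rot, cr_rot']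

lemma XE_rot : XE (k + 1) (syR.g w) j R (ω.map syR.G) ↔ XE k w j R ω := by
  unfold XE
  rw [syR.map_inter ω QB_rot, pk_rot, cr_rot]
  constructor
  · rintro ⟨y, h1, h2⟩
    refine ⟨syR.g' y, ?_, ?_⟩
    · rw [← h1, ← cr_rot k, syR.gg']
    · rw [← syR.co_iff, syR.gg']; exact h2
  · rintro ⟨y, h1, h2⟩
    exact ⟨syR.g y, by rw [cr_rot]; exact h1, (syR.co_iff _ _ _).2 h2⟩

lemma Far_rot {v : ℤ × ℤ} : Far (syR.g x) m (syR.g v) ↔ Far x m v := by
  rw [syR_g, syR_g]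
  unfold Far
  simp only [le_abs]
  omega

lemma AE_rot : AE (k + 1) (syR.g x) m (ω.map syR.G) ↔ AE k x m ω := by
  unfold AE
  rw [syR.map_inter ω HB_rot]
  constructor
  · rintro ⟨y, h1, h2⟩
    refine ⟨syR.g' y, ?_, ?_⟩
    · rw [← Far_rot, syR.gg']; exact h1
    · rw [← syR.co_iff, syR.gg']; exact h2
  · rintro ⟨y, h1, h2⟩
    exact ⟨syR.g y, Far_rot.2 h1, (syR.co_iff _ _ _).2 h2⟩

/-- the gluing bound with constant `c` for the orientation `k` -/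
def GB (c : ℝ) (k : ℤ) : Prop := ∀ (w : ℤ × ℤ) (j R : ℤ), 1 ≤ j → 2 * j ≤ R →
  c * PrP hf (QB k w R) (AE k (pk k w j) (3 * (j / 3))) ≤ PrP hf (QB k w R) (XE k w j R)

lemma GB_rot {c : ℝ} {k : ℤ} (h : GB c k) : GB c (k + 1) := by
  intro w j R h1 h2
  obtain ⟨w', rfl⟩ : ∃ w', w = syR.g w' := ⟨syR.g' w, (syR.gg' w).symm⟩
  have e1 : PrP hf (QB (k + 1) (syR.g w') R) (AE (k + 1) (pk (k + 1) (syR.g w') j) (3 * (j / 3))) =
      PrP hf (QB k w' R) (AE k (pk k w' j) (3 * (j / 3))) := by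
    refine (Sy_PrP syR (1 / 2) QB_rot _).trans (PrP_congr fun ω _ => ?_)
    rw [pk_rot]
    exact AE_rot
  have e2 : PrP hf (QB (k + 1) (syR.g w') R) (XE (k + 1) (syR.g w') j R) =
      PrP hf (QB k w' R) (XE k w' j R) :=
    (Sy_PrP syR (1 / 2) QB_rot _).trans (PrP_congr fun ω _ => XE_rot)
  rw [e1, e2]
  exact h w' j R h1 h2

lemma AE_local : AE k x m ω ↔ AE k x m (ω ∩ HB k x m) := by
  unfold AE
  rw [inter_assoc, inter_self]

lemma XE_local : XE k w j R ω ↔ XE k w j R (ω ∩ QB k w R) := by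
  unfold XE
  rw [inter_assoc, inter_self]

/-- **gluing at the mark**, all orientations, every domain -/
theorem glue : ∃ c : ℝ, 0 < c ∧ ∀ (k : ℤ) (w : ℤ × ℤ) (j R : ℤ) (E : Finset (ℤ × ℤ)), 1 ≤ j →
    2 * j ≤ R → QB k w R ⊆ E →
    c * Pr E (AE k (pk k w j) (3 * (j / 3))) ≤ Pr E (XE k w j R) := by
  obtain ⟨c, hc, h⟩ := glue3
  have h3 : ∀ k : ℤ, k % 4 = 3 → GB c k := by
    intro k hk w j R h1 h2
    rcases cr_all k with ⟨⟨a, b⟩, e, f⟩ | ⟨⟨a, b⟩, e, f⟩ | ⟨⟨a, b⟩, e, f⟩ | ⟨⟨a, b⟩, e, f⟩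
    · exfalso; rcases dir_cases k with ⟨i, d⟩ | ⟨i, d⟩ | ⟨i, d⟩ | ⟨i, d⟩ <;>
        rw [a] at d <;> simp [Prod.ext_iff] at d <;> omega
    · exfalso; rcases dir_cases k with ⟨i, d⟩ | ⟨i, d⟩ | ⟨i, d⟩ | ⟨i, d⟩ <;>
        rw [a] at d <;> simp [Prod.ext_iff] at d <;> omega
    · exfalso; rcases dir_cases k with ⟨i, d⟩ | ⟨i, d⟩ | ⟨i, d⟩ | ⟨i, d⟩ <;>
        rw [a] at d <;> simp [Prod.ext_iff] at d <;> omega
    · exact h k w j R a b e f h1 h2
  have h4 : ∀ k : ℤ, GB c k := by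
    intro k
    have hk : k % 4 = 3 ∨ (k - 1) % 4 = 3 ∨ (k - 2) % 4 = 3 ∨ (k - 3) % 4 = 3 := by omega
    rcases hk with hk | hk | hk | hk
    · exact h3 k hk
    · have := GB_rot (h3 _ hk)
      rwa [sub_add_cancel] at this
    · have := GB_rot (GB_rot (h3 _ hk))
      rwa [show k - 2 + 1 + 1 = k by ring] at this
    · have := GB_rot (GB_rot (GB_rot (h3 _ hk)))
      rwa [show k - 3 + 1 + 1 + 1 = k by ring] at this
  refine ⟨c, hc, fun k w j R E h1 h2 hE => ?_⟩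
  have e1 : Pr E (AE k (pk k w j) (3 * (j / 3))) =
      PrP hf (QB k w R) (AE k (pk k w j) (3 * (j / 3))) := by
    rw [← PrP_half]
    refine PrP_local hE fun ω _ => ?_
    have hs : HB k (pk k w j) (3 * (j / 3)) ⊆ QB k w R := HB_sub (by omega) (by omega)
    have e : ω ∩ QB k w R ∩ HB k (pk k w j) (3 * (j / 3)) = ω ∩ HB k (pk k w j) (3 * (j / 3)) := by
      rw [inter_assoc, inter_eq_right.2 hs]
    unfold AE
    rw [e]
  have e2 : Pr E (XE k w j R) = PrP hf (QB k w R) (XE k w j R) := by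
    rw [← PrP_half]
    exact PrP_local hE fun ω _ => XE_local
  rw [e1, e2]
  exact h4 k w j R h1 h2

end Pool.Agent.H42.FM
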