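import Mathlib
import Pool.Agent.H42.FM.Rot
import Pool.Agent.H21.FM.Wall

set_option autoImplicit false
open Finset

/-! # The shape near the first mark

`w = v1 S h`, `k = S.k 0`. In the ball of radius `h` around `w` the random labels are the labels of the
quadrant `dK k w`; the wired labels of the ball of radius `h - 1` are the labels next to the wired side. -/

namespace Pool.Agent.H42.FM

open Pool.Agent.H75.Perc hiding WL CT hh EE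
open Pool.Agent.H75.TwoArm Pool.Agent.H75.Four Pool.Agent.H69.Q1 Pool.Agent.Q1
open Pool.Agent.Q1.M4 (Cell Good IsSide nextSide tail head PType Adj4 Conn4)
open Pool.Agent.H33.Q1
open Pool.Agent.H21.FM
open Pool.Agent.H60.Q1 (Near Far)
open Pool.Agent.H99.NC (BR inR inR_iff)

/-- shift of labels -/
def sh (d : ℤ × ℤ) : ℤ × ℤ := (d.1 - d.2, d.1 + d.2)

lemma lt_add (p d : ℤ × ℤ) : lt (p + d) = lt p + sh d := by
  unfold lt sh
  refine Prod.ext ?_ ?_ <;> simp only [Prod.fst_add, Prod.snd_add] <;> ring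

lemma tt_sh {l d : ℤ × ℤ} (hl : (l.1 + l.2) % 2 = 1) : tt (l + sh d) = tt l + d := by
  apply lt_inj
  rw [lt_add, lt_tt hl, lt_tt]
  unfold sh
  simp only [Prod.fst_add, Prod.snd_add]
  omega

lemma cr_sh_self (k : ℤ) : cr k (sh (dir k)) = 2 ∧ cr (k + 1) (sh (dir k)) = 0 := by
  unfold sh
  rcases cr_all k with ⟨⟨a, -⟩, e, f⟩ | ⟨⟨a, -⟩, e, f⟩ | ⟨⟨a, -⟩, e, f⟩ | ⟨⟨a, -⟩, e, f⟩ <;>
    rw [e, f, a] <;> simp

lemma sh_neg (d : ℤ × ℤ) : sh (-d) = - sh d := by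
  unfold sh
  refine Prod.ext ?_ ?_ <;> simp only [Prod.fst_neg, Prod.snd_neg] <;> ring

lemma cr_neg (k : ℤ) (v : ℤ × ℤ) : cr k (-v) = - cr k v := by
  unfold cr
  simp only [Prod.fst_neg, Prod.snd_neg]
  ring

lemma dir_pred (k : ℤ) : dir (k - 1) = - dir (k + 1) := by
  have := Pool.Agent.Q1.M4.dir_neg (k - 1)
  rw [show k - 1 + 2 = k + 1 by ring] at this
  rw [this, neg_neg]

/-- the four cells around the tail of a side -/
lemma cell4 {h : ℕ} (hh : 0 < h) (s : Cell × ℤ) {l : ℤ × ℤ} (hl : l ∈ BR (wv h s 0) h) :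
    (2 * cr s.2 (wv h s 0) ≤ cr s.2 l → 2 * cr (s.2 + 1) (wv h s 0) ≤ cr (s.2 + 1) l →
      ct (2 * h) (tt l) = s.1) ∧
    (2 * cr s.2 (wv h s 0) ≤ cr s.2 l → ¬ 2 * cr (s.2 + 1) (wv h s 0) ≤ cr (s.2 + 1) l →
      ct (2 * h) (tt l) = s.1 - dir (s.2 + 1)) ∧
    (¬ 2 * cr s.2 (wv h s 0) ≤ cr s.2 l → 2 * cr (s.2 + 1) (wv h s 0) ≤ cr (s.2 + 1) l →
      ct (2 * h) (tt l) = s.1 - dir s.2) ∧
    (¬ 2 * cr s.2 (wv h s 0) ≤ cr s.2 l → ¬ 2 * cr (s.2 + 1) (wv h s 0) ≤ cr (s.2 + 1) l →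
      ct (2 * h) (tt l) = s.1 - dir (s.2 + 1) - dir s.2) := by
  have hz : (0 : ℤ) < h := by exact_mod_cast hh
  obtain ⟨⟨c1, c2⟩, k⟩ := s
  simp only at hl ⊢
  have hp := pos_wv hh ((c1, c2), k) 0 (Nat.zero_le h)
  simp only at hp
  set w := wv h ((c1, c2), k) 0 with hw
  rw [mem_BR] at hl
  obtain ⟨X, hX⟩ : ∃ X, l.1 + l.2 = 2 * X + 1 := ⟨(l.1 + l.2) / 2, by omega⟩
  obtain ⟨Y, hY⟩ : ∃ Y, l.2 - l.1 = 2 * Y + 1 := ⟨(l.2 - l.1) / 2, by omega⟩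
  have ht : tt l = (X, Y) := by
    unfold tt
    refine Prod.ext ?_ ?_ <;> simp only <;> omega
  rw [ht]
  unfold tv at hp
  rcases cr_all k with ⟨⟨a, b⟩, e, f⟩ | ⟨⟨a, b⟩, e, f⟩ | ⟨⟨a, b⟩, e, f⟩ | ⟨⟨a, b⟩, e, f⟩ <;>
  rw [e, e, f, f, a, b] <;>
  rcases hp with ⟨g, hp⟩ | ⟨g, hp⟩ | ⟨g, hp⟩ | ⟨g, hp⟩ <;>
  first
  | (exfalso; rcases dir_cases k with ⟨i, d⟩ | ⟨i, d⟩ | ⟨i, d⟩ | ⟨i, d⟩ <;>
      rw [a] at d <;> simp [Prod.ext_iff] at d <;> omega)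
  | (rw [Prod.mk.injEq] at hp
     obtain ⟨hp1, hp2⟩ := hp
     simp only [Nat.cast_zero, mul_zero, add_zero, sub_zero] at hp1 hp2
     refine ⟨fun i1 i2 => ?_, fun i1 i2 => ?_, fun i1 i2 => ?_, fun i1 i2 => ?_⟩ <;>
     apply ct_of' hh <;> simp only [Prod.mk_sub_mk] <;>
     linarith)

section shape

variable {S : Shape} {h : ℕ}

lemma v1_eq : v1 S h = wv h (S.P.side 0) 0 := rfl

lemma k0_eq : (S.P.side 0).2 = S.k 0 := rfl

lemma side_N : S.P.side S.P.N = ((S.P.side 0).1, (S.P.side 0).2 + 4) := S.P.period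

lemma side_pred : S.P.side (S.P.N - 1) = ((S.P.side 0).1, (S.P.side 0).2 + 3) := by
  have hN : 0 < S.P.N := (Nat.zero_le _).trans_lt S.P.hmN
  have h1 := S.cvx (S.P.N - 1) (Or.inr (Or.inr (Or.inr (by omega))))
  rw [Nat.sub_add_cancel hN, side_N] at h1
  rw [Prod.mk.injEq] at h1
  refine Prod.ext h1.1.symm ?_
  simp only
  have := h1.2
  omega

/-- the cells around the mark -/
lemma cells1 (S : Shape) : (S.P.side 0).1 ∈ S.P.Q ∧ (S.P.side 0).1 - dir (S.k 0 + 1) ∉ S.P.Q ∧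
    (S.P.side 0).1 - dir (S.k 0) ∉ S.P.Q ∧
    (S.P.side 0).1 - dir (S.k 0 + 1) - dir (S.k 0) ∉ S.P.Q := by
  have h0 := isSide_side' S.P 0
  have h1 := isSide_side' S.P (S.P.N - 1)
  rw [side_pred] at h1
  have a1 : (S.P.side 0).1 - dir (S.k 0 + 1) ∉ S.P.Q := by
    have := h0.2
    rw [k0_eq, dir_pred, ← sub_eq_add_neg] at this
    exact this
  have a2 : (S.P.side 0).1 - dir (S.k 0) ∉ S.P.Q := by
    have := h1.2
    simp only at this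
    rw [k0_eq, show S.k 0 + 3 - 1 = S.k 0 + 2 by ring, Pool.Agent.Q1.M4.dir_neg,
      ← sub_eq_add_neg] at this
    exact this
  refine ⟨h0.1, a1, a2, ?_⟩
  have := diag_notMem S.P.good h0.1 h0.2 a2
  rw [k0_eq, dir_pred, ← sub_eq_add_neg] at this
  exact this

/-- the random labels near the mark -/
theorem mem_EE_near (hh : 0 < h) {l : ℤ × ℤ} (hl : l ∈ BR (v1 S h) h) :
    l ∈ EE S h ↔ dK (S.k 0) (v1 S h) l := by
  obtain ⟨c1, c2, c3, c4⟩ := cells1 S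
  obtain ⟨d1, d2, d3, d4⟩ := cell4 hh (S.P.side 0) hl
  have hn : (0 : ℤ) < 2 * h := by positivity
  unfold EE
  rw [mem_TL hn]
  rw [mem_BR] at hl
  unfold dK
  rw [v1_eq]
  rw [k0_eq] at d1 d2 d3 d4
  by_cases a : 2 * cr (S.k 0) (wv h (S.P.side 0) 0) ≤ cr (S.k 0) l <;>
  by_cases b : 2 * cr (S.k 0 + 1) (wv h (S.P.side 0) 0) ≤ cr (S.k 0 + 1) l
  · exact ⟨fun _ => ⟨a, b⟩, fun _ => ⟨hl.2.2, by rw [d1 a b]; exact c1⟩⟩
  · exact ⟨fun g => absurd (d2 a b ▸ g.2) c2, fun g => absurd g.2 b⟩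
  · exact ⟨fun g => absurd (d3 a b ▸ g.2) c3, fun g => absurd g.1 a⟩
  · exact ⟨fun g => absurd (d4 a b ▸ g.2) c4, fun g => absurd g.1 a⟩

lemma QB_sub_EE (hh : 0 < h) {R : ℤ} (hR : R ≤ h) : QB (S.k 0) (v1 S h) R ⊆ EE S h := by
  intro l hl
  rw [mem_QB] at hl
  exact (mem_EE_near hh (Pool.Agent.H20.Q1.BR_mono hR hl.1)).2 hl.2

/-- the sides of the walk are distinct -/
lemma side_inj {i j : ℕ} (hi : i < S.P.N) (hj : j < S.P.N) (h1 : (S.P.side i).1 = (S.P.side j).1)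
    (h2 : ((S.P.side i).2 - (S.P.side j).2) % 4 = 0) : i = j := S.P.inj i hi j hj h1 h2

lemma mem_W0 {l : ℤ × ℤ} : l ∈ W0 S h ↔ ∃ i, (S.m2 ≤ i ∧ i < S.m3 ∨ S.m4 ≤ i ∧ i < S.N) ∧
    l ∈ LY (2 * h) (S.P.side i) := by
  unfold W0
  simp only [mem_biUnion, mem_union, mem_Ico]

/-- the wired labels near the mark -/
theorem W0_near (hh : 0 < h) {l : ℤ × ℤ} (hW : l ∈ W0 S h) (hl : l ∈ BR (v1 S h) (h - 1)) :
    cr (S.k 0) l = 2 * cr (S.k 0) (v1 S h) - 1 ∧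
      2 * cr (S.k 0 + 1) (v1 S h) ≤ cr (S.k 0 + 1) l := by
  obtain ⟨i, hi, hLY⟩ := mem_W0.1 hW
  have hn : (0 : ℤ) < 2 * h := by positivity
  have hs := isSide_side' S.P i
  rw [mem_LY hn] at hLY
  obtain ⟨hodd, e1, e2⟩ := hLY
  set s := S.P.side i with hsd
  set δ := dir (s.2 - 1) with hδ
  have hδc : δ = (1, 0) ∨ δ = (0, 1) ∨ δ = (-1, 0) ∨ δ = (0, -1) := by
    rcases dir_cases (s.2 - 1) with ⟨-, g⟩ | ⟨-, g⟩ | ⟨-, g⟩ | ⟨-, g⟩ <;> rw [hδ, g] <;> simp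
  -- the inner tile
  set l' := l + sh (-δ) with hl'
  have ht' : tt l' = tt l - δ := by rw [hl', tt_sh hodd, sub_eq_add_neg]
  have hl'B : l' ∈ BR (v1 S h) h := by
    rw [mem_BR] at hl ⊢
    rw [hl']
    unfold sh
    simp only [Prod.fst_add, Prod.snd_add, Prod.fst_neg, Prod.snd_neg]
    rcases hδc with g | g | g | g <;> rw [g] <;> simp only <;> omega
  have hlB : l ∈ BR (v1 S h) h := Pool.Agent.H20.Q1.BR_mono (by omega) hl
  have hl'odd : (l'.1 + l'.2) % 2 = 1 := (mem_BR.1 hl'B).2.2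
  have hl'E : l' ∈ EE S h := by
    unfold EE
    rw [mem_TL hn, ht', e2]
    exact ⟨hl'odd, hs.1⟩
  have hlE : l ∉ EE S h := by
    unfold EE
    rw [mem_TL hn, e1]
    exact fun g => hs.2 g.2
  have hd' := (mem_EE_near hh hl'B).1 hl'E
  have hd : ¬ dK (S.k 0) (v1 S h) l := fun g => hlE ((mem_EE_near hh hlB).2 g)
  -- the cell of the inner tile
  have g1 : s.1 = (S.P.side 0).1 := by
    have := (cell4 hh (S.P.side 0) hl'B).1 hd'.1 hd'.2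
    rw [← this, ht', e2]
  obtain ⟨-, d2, d3, d4⟩ := cell4 hh (S.P.side 0) hlB
  rw [k0_eq] at d2 d3 d4
  rw [v1_eq] at hd hd' ⊢
  have hcl : cr (S.k 0) l' = cr (S.k 0) l + cr (S.k 0) (sh (-δ)) ∧
      cr (S.k 0 + 1) l' = cr (S.k 0 + 1) l + cr (S.k 0 + 1) (sh (-δ)) := by
    rw [hl', cr_add, cr_add]
    exact ⟨rfl, rfl⟩
  unfold dK at hd hd'
  by_cases a : 2 * cr (S.k 0) (wv h (S.P.side 0) 0) ≤ cr (S.k 0) l
  · -- the tile is below the free side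
    exfalso
    have b : ¬ 2 * cr (S.k 0 + 1) (wv h (S.P.side 0) 0) ≤ cr (S.k 0 + 1) l := fun b => hd ⟨a, b⟩
    have g2 := d2 a b
    rw [e1, g1, sub_eq_add_neg, add_right_inj, ← dir_pred] at g2
    have g3 := Pool.Agent.Q1.M4.dir_inj g2
    have hN : 0 < S.P.N := (Nat.zero_le _).trans_lt S.P.hmN
    have hiN : i < S.P.N := by
      rcases hi with hi | hi
      · have := S.h34
        have := S.P.hmN
        omega
      · exact hi.2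
    have g4 : i = 0 := by
      refine side_inj hiN hN g1 ?_
      have e9 : (S.P.side 0).2 = S.k 0 := rfl
      have e10 : (S.P.side i).2 = s.2 := rfl
      rw [e9, e10]
      omega
    have h02 := S.h02
    have h23 := S.h23
    have h34 := S.h34
    have hm4 : S.m4 = S.P.m := rfl
    omega
  · by_cases b : 2 * cr (S.k 0 + 1) (wv h (S.P.side 0) 0) ≤ cr (S.k 0 + 1) l
    · have g2 := d3 a b
      rw [e1, g1, sub_eq_add_neg, add_right_inj] at g2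
      rw [g2, neg_neg] at hcl
      have g3 := cr_sh_self (S.k 0)
      refine ⟨?_, b⟩
      have p1 : (cr (S.k 0) l) % 2 = 1 := by
        rcases cr_all (S.k 0) with ⟨-, e, f⟩ | ⟨-, e, f⟩ | ⟨-, e, f⟩ | ⟨-, e, f⟩ <;> rw [e] <;> omega
      omega
    · exfalso
      have g2 := d4 a b
      rw [e1, g1] at g2
      rcases cr_all (S.k 0) with ⟨⟨u, v⟩, -⟩ | ⟨⟨u, v⟩, -⟩ | ⟨⟨u, v⟩, -⟩ | ⟨⟨u, v⟩, -⟩ <;>
      rw [u, v] at g2 <;> rcases hδc with g | g | g | g <;> rw [g] at g2 <;>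
      simp [Prod.ext_iff] at g2 <;> omega

/-- conversely, the labels next to the wired side are wired -/
theorem W0_of (hh : 0 < h) {l : ℤ × ℤ} (hl : l ∈ BR (v1 S h) (h - 1))
    (h1 : cr (S.k 0) l = 2 * cr (S.k 0) (v1 S h) - 1)
    (h2 : 2 * cr (S.k 0 + 1) (v1 S h) ≤ cr (S.k 0 + 1) l) : l ∈ W0 S h := by
  have hn : (0 : ℤ) < 2 * h := by positivity
  have hmN := S.P.hmN
  have hm4 : S.m4 = S.P.m := rfl
  have hSN : S.N = S.P.N := rfl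
  refine mem_W0.2 ⟨S.P.N - 1, Or.inr (by omega), ?_⟩
  have hodd : (l.1 + l.2) % 2 = 1 := (mem_BR.1 hl).2.2
  rw [mem_LY hn, side_pred]
  simp only
  rw [k0_eq, show S.k 0 + 3 - 1 = S.k 0 + 2 by ring, Pool.Agent.Q1.M4.dir_neg]
  have hlB : l ∈ BR (v1 S h) h := Pool.Agent.H20.Q1.BR_mono (by omega) hl
  refine ⟨hodd, ?_, ?_⟩
  · have := (cell4 hh (S.P.side 0) hlB).2.2.1 (by rw [k0_eq, ← v1_eq]; omega)
      (by rw [k0_eq, ← v1_eq]; exact h2)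
    rw [this, k0_eq, sub_eq_add_neg]
  · rw [sub_neg_eq_add, ← tt_sh hodd]
    have hl' : l + sh (dir (S.k 0)) ∈ BR (v1 S h) h := by
      rw [mem_BR] at hl ⊢
      unfold sh
      simp only [Prod.fst_add, Prod.snd_add]
      rcases cr_all (S.k 0) with ⟨⟨u, v⟩, -⟩ | ⟨⟨u, v⟩, -⟩ | ⟨⟨u, v⟩, -⟩ | ⟨⟨u, v⟩, -⟩ <;>
      rw [u] <;> simp only <;> omega
    have g3 := cr_sh_self (S.k 0)
    refine (cell4 hh (S.P.side 0) hl').1 ?_ ?_
    · rw [k0_eq, ← v1_eq, cr_add]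
      omega
    · rw [k0_eq, ← v1_eq, cr_add]
      omega

end shape

end Pool.Agent.H42.FM
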