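import Mathlib
import Pool.Agent.H42.FM.Loc

set_option autoImplicit false
open Finset

/-! # The wired side near the first mark is connected to the mark -/

namespace Pool.Agent.H42.FM

open Pool.Agent.H75.Perc hiding WL CT hh EE
open Pool.Agent.H75.TwoArm Pool.Agent.H75.Four Pool.Agent.H69.Q1 Pool.Agent.Q1
open Pool.Agent.Q1.M4 (Cell Good IsSide nextSide tail head PType Adj4 Conn4)
open Pool.Agent.H33.Q1
open Pool.Agent.H21.FM
open Pool.Agent.H60.Q1 (Near Far)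
open Pool.Agent.H99.NC (BR inR inR_iff)

variable {S : Shape} {h : ℕ}

lemma cr_par (k : ℤ) (v : ℤ × ℤ) : (cr k v + cr (k + 1) v) % 2 = 0 := by
  rcases cr_all k with ⟨-, e, f⟩ | ⟨-, e, f⟩ | ⟨-, e, f⟩ | ⟨-, e, f⟩ <;> rw [e, f] <;> omega

/-- the vertices of the wired side are connected to the mark -/
theorem ray_co (hh : 0 < h) : ∀ (n : ℕ) (y : ℤ × ℤ), cr (S.k 0) y = cr (S.k 0) (v1 S h) →
    cr (S.k 0 + 1) y = cr (S.k 0 + 1) (v1 S h) + 2 * n → inR (v1 S h) (h - 1) y →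
    Co (W0 S h) y (v1 S h) := by
  intro n
  induction n with
  | zero =>
    intro y h1 h2 h3
    have : y = v1 S h := by
      refine Prod.ext ?_ ?_ <;>
      · rcases cr_all (S.k 0) with ⟨-, e, f⟩ | ⟨-, e, f⟩ | ⟨-, e, f⟩ | ⟨-, e, f⟩ <;>
        rw [e, e] at h1 <;> rw [f, f] at h2 <;> push_cast at h2 <;> omega
    rw [this]
    exact Co.refl _ _
  | succ n ih =>
    intro y h1 h2 h3
    push_cast at h2
    rw [inR_iff] at h3
    set k := S.k 0 with hk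
    -- the two steps
    have hstep : ∃ z y' : ℤ × ℤ, IsUnit4 (z - y) ∧ IsUnit4 (y' - z) ∧
        y + z ∈ W0 S h ∧ z + y' ∈ W0 S h ∧ cr k y' = cr k (v1 S h) ∧
        cr (k + 1) y' = cr (k + 1) (v1 S h) + 2 * n ∧ inR (v1 S h) (h - 1) y' := by
      refine ⟨y - dir (k + 1), y - dir (k + 1) + dir k, ?_, ?_, ?_, ?_, ?_, ?_, ?_⟩
      · rw [sub_sub_cancel_left]
        exact isUnit4_neg (isUnit4_dir _)
      · rw [add_sub_cancel_left]
        exact isUnit4_dir _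
      · rcases cr_all k with ⟨⟨a, b⟩, e, f⟩ | ⟨⟨a, b⟩, e, f⟩ | ⟨⟨a, b⟩, e, f⟩ | ⟨⟨a, b⟩, e, f⟩ <;>
        rw [e, e] at h1 <;> rw [f, f] at h2 <;> rw [b] <;>
        refine W0_of hh (by
          rw [mem_BR]
          simp only [Prod.fst_add, Prod.snd_add, Prod.fst_sub, Prod.snd_sub]
          omega) (by
          rw [← hk, e, e]
          simp only [Prod.fst_add, Prod.snd_add, Prod.fst_sub, Prod.snd_sub]
          omega) (by
          rw [← hk, f, f]
          simp only [Prod.fst_add, Prod.snd_add, Prod.fst_sub, Prod.snd_sub]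
          omega)
      · rcases cr_all k with ⟨⟨a, b⟩, e, f⟩ | ⟨⟨a, b⟩, e, f⟩ | ⟨⟨a, b⟩, e, f⟩ | ⟨⟨a, b⟩, e, f⟩ <;>
        rw [e, e] at h1 <;> rw [f, f] at h2 <;> rw [b, a] <;>
        refine W0_of hh (by
          rw [mem_BR]
          simp only [Prod.fst_add, Prod.snd_add, Prod.fst_sub, Prod.snd_sub]
          omega) (by
          rw [← hk, e, e]
          simp only [Prod.fst_add, Prod.snd_add, Prod.fst_sub, Prod.snd_sub]
          omega) (by
          rw [← hk, f, f]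
          simp only [Prod.fst_add, Prod.snd_add, Prod.fst_sub, Prod.snd_sub]
          omega)
      · rcases cr_all k with ⟨⟨a, b⟩, e, f⟩ | ⟨⟨a, b⟩, e, f⟩ | ⟨⟨a, b⟩, e, f⟩ | ⟨⟨a, b⟩, e, f⟩ <;>
        rw [e, e] at h1 <;> rw [e, e, b, a] <;>
        simp only [Prod.fst_add, Prod.snd_add, Prod.fst_sub, Prod.snd_sub] <;> omega
      · rcases cr_all k with ⟨⟨a, b⟩, e, f⟩ | ⟨⟨a, b⟩, e, f⟩ | ⟨⟨a, b⟩, e, f⟩ | ⟨⟨a, b⟩, e, f⟩ <;>
        rw [f, f] at h2 <;> rw [f, f, b, a] <;>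
        simp only [Prod.fst_add, Prod.snd_add, Prod.fst_sub, Prod.snd_sub] <;> omega
      · rcases cr_all k with ⟨⟨a, b⟩, e, f⟩ | ⟨⟨a, b⟩, e, f⟩ | ⟨⟨a, b⟩, e, f⟩ | ⟨⟨a, b⟩, e, f⟩ <;>
        rw [e, e] at h1 <;> rw [f, f] at h2 <;> rw [b, a, inR_iff] <;>
        simp only [Prod.fst_add, Prod.snd_add, Prod.fst_sub, Prod.snd_sub] <;> omega
    obtain ⟨z, y', g1, g2, g3, g4, g5, g6, g7⟩ := hstep
    have c1 : Co (W0 S h) y z := Relation.ReflTransGen.single ⟨g1, g3⟩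
    have c2 : Co (W0 S h) z y' := Relation.ReflTransGen.single ⟨g2, g4⟩
    exact (c1.trans c2).trans (ih y' g5 g6 g7)

/-- form with inequalities -/
theorem ray_co' (hh : 0 < h) {y : ℤ × ℤ} (h1 : cr (S.k 0) y = cr (S.k 0) (v1 S h))
    (h2 : cr (S.k 0 + 1) (v1 S h) ≤ cr (S.k 0 + 1) y) (h3 : inR (v1 S h) (h - 1) y) :
    Co (W0 S h) y (v1 S h) := by
  have p1 := cr_par (S.k 0) y
  have p2 := cr_par (S.k 0) (v1 S h)
  refine ray_co hh ((cr (S.k 0 + 1) y - cr (S.k 0 + 1) (v1 S h)) / 2).toNat y h1 ?_ h3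
  omega

/-- the wired labels near the mark are connected to the mark -/
theorem W0_near_co (hh : 0 < h) {y z : ℤ × ℤ} (hu : IsUnit4 (z - y)) (hW : y + z ∈ W0 S h)
    (hl : y + z ∈ BR (v1 S h) (h - 1)) : Co (W0 S h) y (v1 S h) := by
  obtain ⟨g1, g2⟩ := W0_near hh hW hl
  obtain ⟨i1, i2⟩ := Pool.Agent.H20.Q1.BR_ends hu hl
  obtain ⟨u1, u2⟩ := cr_unit (S.k 0) hu
  rw [cr_add] at g1 g2
  by_cases h1 : cr (S.k 0) y = cr (S.k 0) (v1 S h)
  · exact ray_co' hh h1 (by omega) i1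
  · have h2 : cr (S.k 0) z = cr (S.k 0) (v1 S h) := by omega
    have c1 : Co (W0 S h) y z := Relation.ReflTransGen.single ⟨hu, hW⟩
    exact c1.trans (ray_co' hh h2 (by omega) i2)

/-- the third mark is far away -/
theorem v3_far (hh : 0 < h) : Far (v1 S h) h (v3 S h) := by
  have hz : (0 : ℤ) < h := by exact_mod_cast hh
  have hne : tail (S.P.side S.m3) ≠ tail (S.P.side 0) := by
    intro h1
    have h2 := Pool.Agent.Q1.M4.tail_inj S.P.good (isSide_side' S.P S.m3) (isSide_side' S.P 0) h1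
    have hN : 0 < S.P.N := (Nat.zero_le _).trans_lt S.P.hmN
    have h34 := S.h34
    have hmN := S.P.hmN
    have h3 := side_inj (S := S) (show S.m3 < S.P.N by omega) hN h2.1 h2.2
    have h23 := S.h23
    omega
  have e1 : (v3 S h).1 - (v1 S h).1 = h * (((tail (S.P.side S.m3)).1 - (tail (S.P.side 0)).1) -
      ((tail (S.P.side S.m3)).2 - (tail (S.P.side 0)).2)) := by
    unfold v3 v1 wv
    simp only [Nat.cast_zero, zero_mul, add_zero]
    ring
  have e2 : (v3 S h).2 - (v1 S h).2 = h * (((tail (S.P.side S.m3)).1 - (tail (S.P.side 0)).1) +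
      ((tail (S.P.side S.m3)).2 - (tail (S.P.side 0)).2)) := by
    unfold v3 v1 wv
    simp only [Nat.cast_zero, zero_mul, add_zero]
    ring
  unfold Far
  rw [e1, e2, abs_mul, abs_mul, abs_of_pos hz]
  set D1 := (tail (S.P.side S.m3)).1 - (tail (S.P.side 0)).1 with hD1
  set D2 := (tail (S.P.side S.m3)).2 - (tail (S.P.side 0)).2 with hD2
  have hD : D1 - D2 ≠ 0 ∨ D1 + D2 ≠ 0 := by
    by_contra hcon
    push Not at hcon
    apply hne
    refine Prod.ext ?_ ?_ <;> omega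
  rcases hD with hD | hD
  · left
    have : 1 ≤ |D1 - D2| := Int.one_le_abs hD
    nlinarith
  · right
    have : 1 ≤ |D1 + D2| := Int.one_le_abs hD
    nlinarith

/-- wall points -/
lemma wv_pk (j : ℕ) : wv h (S.P.side 0) j = pk (S.k 0) (v1 S h) j := by
  unfold pk v1 wv
  rw [k0_eq]
  refine Prod.ext ?_ ?_ <;> simp

/-- ends of a label of the quadrant -/
lemma dK_ends {k : ℤ} {w y z : ℤ × ℤ} (hu : IsUnit4 (z - y)) (hd : dK k w (y + z)) :
    (cr k w ≤ cr k y ∧ cr (k + 1) w ≤ cr (k + 1) y) ∧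
    (cr k w ≤ cr k z ∧ cr (k + 1) w ≤ cr (k + 1) z) := by
  obtain ⟨u1, u2⟩ := cr_unit k hu
  unfold dK at hd
  rw [cr_add, cr_add] at hd
  omega

/-- a vertex of the cluster of a wall point inside the quadrant -/
lemma QB_co {k : ℤ} {w u y : ℤ × ℤ} {R : ℤ} {ω : Finset (ℤ × ℤ)}
    (hu : cr k w ≤ cr k u ∧ cr (k + 1) w ≤ cr (k + 1) u) (h : Co (ω ∩ QB k w R) u y) :
    (cr k w ≤ cr k y ∧ cr (k + 1) w ≤ cr (k + 1) y) ∧ (inR w R u → inR w R y) := by
  rcases Relation.ReflTransGen.cases_tail h with h | ⟨c, -, h⟩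
  · rw [h]; exact ⟨hu, id⟩
  · have h1 := mem_QB.1 (mem_inter.1 h.2).2
    exact ⟨(dK_ends h.1 h1.2).2, fun _ => (Pool.Agent.H20.Q1.BR_ends h.1 h1.1).2⟩

/-- **the local connection is a connection to the arc** -/
theorem C1_of_XE (hh : 0 < h) {j : ℕ} {R : ℤ} (hj : 1 ≤ j) (hR : R ≤ h - 1)
    {ω : Finset (ℤ × ℤ)} (hx : XE (S.k 0) (v1 S h) j R ω) :
    C1 S h (wv h (S.P.side 0) j) (ω ∩ QB (S.k 0) (v1 S h) R) := by
  obtain ⟨y, hy, hc⟩ := hx
  unfold C1
  rw [wv_pk]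
  have g0 := pk_cr (S.k 0) (v1 S h) j
  have hne : y ≠ pk (S.k 0) (v1 S h) j := by
    rintro rfl
    have : (1 : ℤ) ≤ j := by exact_mod_cast hj
    omega
  have hy2 : inR (v1 S h) R y := by
    rcases Relation.ReflTransGen.cases_tail hc with h | ⟨c, -, h⟩
    · exact absurd h hne
    · exact (Pool.Agent.H20.Q1.BR_ends h.1 (mem_QB.1 (mem_inter.1 h.2).2).1).2
  have hq := (QB_co ⟨by omega, by omega⟩ hc).1
  have c2 := ray_co' hh hy hq.2 (by rw [inR_iff] at hy2 ⊢; omega)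
  exact (hc.mono subset_union_left).trans (c2.mono subset_union_right)

end Pool.Agent.H42.FM
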