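import Mathlib
import Pool.Agent.H42.FM.Ray

set_option autoImplicit false
open Finset

/-! # Deterministic facts at the first mark -/

namespace Pool.Agent.H42.FM

open Pool.Agent.H75.Perc hiding WL CT hh EE
open Pool.Agent.H75.TwoArm Pool.Agent.H75.Four Pool.Agent.H69.Q1 Pool.Agent.Q1
open Pool.Agent.Q1.M4 (Cell Good IsSide nextSide tail head PType Adj4 Conn4)
open Pool.Agent.H33.Q1
open Pool.Agent.H21.FM
open Pool.Agent.H60.Q1 (Near Far open_exit)
open Pool.Agent.H60.Q1.Corn (UG AG mem_AG UG_intro UG_local)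
open Pool.Agent.H99.NC (BR inR inR_iff)
open Pool.Agent.H20.Q1 (BR_mono BR_ends)

variable {S : Shape} {h : ℕ} {ω : Finset (ℤ × ℤ)}

/-- the wired labels away from the mark -/
noncomputable def WF (S : Shape) (h : ℕ) : Finset (ℤ × ℤ) := W0 S h \ BR (v1 S h) (h - 1)

/-- a cluster which avoids the mark uses only far wired labels -/
lemma co_far (hh : 0 < h) {u v : ℤ × ℤ} (h1 : Co (ω ∪ W0 S h) u v)
    (h2 : ¬ Co (ω ∪ W0 S h) u (v1 S h)) : Co (ω ∪ WF S h) u v := by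
  have key : ∀ y, Co (ω ∪ W0 S h) u y → Co (ω ∪ WF S h) u y := by
    intro y hy
    induction hy with
    | refl => exact Co.refl _ _
    | @tail p r hp hpr ih =>
      refine ih.tail ⟨hpr.1, ?_⟩
      rcases mem_union.1 hpr.2 with g | g
      · exact mem_union_left _ g
      · refine mem_union_right _ ?_
        unfold WF
        refine Finset.mem_sdiff.2 ⟨g, fun gB => h2 ?_⟩
        exact (show Co (ω ∪ W0 S h) u p from hp).trans
          ((W0_near_co hh hpr.1 g gB).mono subset_union_right)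
  exact key v h1

/-- vertices of a cluster which avoids the mark -/
lemma co_strict (hh : 2 < h) (hω : ω ⊆ EE S h) {u y : ℤ × ℤ}
    (hu : cr (S.k 0) (v1 S h) ≤ cr (S.k 0) u ∧ cr (S.k 0 + 1) (v1 S h) ≤ cr (S.k 0 + 1) u)
    (h2 : ¬ Co (ω ∪ W0 S h) u (v1 S h)) (h1 : Co (ω ∪ WF S h) u y)
    (hy : inR (v1 S h) (h - 2) y) : PK (S.k 0) (v1 S h) y := by
  have hc : cr (S.k 0) (v1 S h) ≤ cr (S.k 0) y ∧ cr (S.k 0 + 1) (v1 S h) ≤ cr (S.k 0 + 1) y := by
    rcases Relation.ReflTransGen.cases_tail h1 with g | ⟨c, -, g⟩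
    · rw [g]; exact hu
    · have hB : c + y ∈ BR (v1 S h) (h - 1) := by
        have i1 := unit_cases g.1
        rw [inR_iff] at hy
        rw [mem_BR]
        simp only [Prod.fst_add, Prod.snd_add]
        omega
      rcases mem_union.1 g.2 with i | i
      · have i2 := (mem_EE_near (by omega) (BR_mono (by omega) hB)).1 (hω i)
        exact (dK_ends g.1 i2).2
      · unfold WF at i
        exact absurd hB (Finset.mem_sdiff.1 i).2
  unfold PK
  rcases lt_or_eq_of_le hc.1 with g | g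
  · exact g
  · exfalso
    have i1 := ray_co' (by omega : 0 < h) g.symm hc.2 (by rw [inR_iff] at hy ⊢; omega)
    refine h2 ((h1.mono ?_).trans (i1.mono subset_union_right))
    exact union_subset_union_right sdiff_subset

/-- **a cluster from near the mark to far away which avoids the mark** -/
theorem UG_of (hh : 2 < h) (hω : ω ⊆ EE S h) {u v : ℤ × ℤ} {ρ : ℤ} (hρ : ρ < h - 2)
    (hu : Near (v1 S h) ρ u)
    (huc : cr (S.k 0) (v1 S h) ≤ cr (S.k 0) u ∧ cr (S.k 0 + 1) (v1 S h) ≤ cr (S.k 0 + 1) u)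
    (hv : Far (v1 S h) (h - 2) v) (h1 : Co (ω ∪ W0 S h) u v)
    (h2 : ¬ Co (ω ∪ W0 S h) u (v1 S h)) :
    UG (PK (S.k 0)) (dK (S.k 0)) (v1 S h) ρ (h - 2) ω := by
  have hη : (ω ∪ WF S h) ∩ (EE S h ∪ WF S h) = ω ∪ WF S h :=
    inter_eq_left.2 (union_subset_union_left hω)
  have c1 : Co ((ω ∪ WF S h) ∩ (EE S h ∪ WF S h)) u v := by
    rw [hη]; exact co_far (by omega) h1 h2
  have g1 : UG (PK (S.k 0)) (dK (S.k 0)) (v1 S h) ρ (h - 2) (ω ∪ WF S h) := by
    refine UG_intro hρ hu hv c1 (fun y hy hy2 => ?_) (fun y z _ _ hyz => ?_) (fun l hl hl1 _ => ?_)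
    · rw [hη] at hy
      exact co_strict hh hω huc h2 hy hy2
    · rw [mem_AG] at hyz
      exact mem_union_left _ ((mem_EE_near (by omega) (BR_mono (by omega) hyz.1.1)).2 hyz.2)
    · rcases mem_union.1 hl with g | g
      · exact (mem_EE_near (by omega) (BR_mono (by omega) hl1)).1 g
      · unfold WF at g
        exact absurd (BR_mono (by omega) hl1) (Finset.mem_sdiff.1 g).2
  rw [UG_local] at g1 ⊢
  have e1 : (ω ∪ WF S h) ∩ AG (dK (S.k 0)) (v1 S h) ρ (h - 2) =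
      ω ∩ AG (dK (S.k 0)) (v1 S h) ρ (h - 2) := by
    rw [union_inter_distrib_right]
    refine union_eq_left.2 ?_
    intro l hl
    obtain ⟨i1, i2⟩ := mem_inter.1 hl
    rw [mem_AG] at i2
    unfold WF at i1
    exact absurd (BR_mono (by omega) i2.1.1) (Finset.mem_sdiff.1 i1).2
  rw [← e1]
  exact g1

/-- the wall point is near the mark -/
lemma near_pk (k : ℤ) (w : ℤ × ℤ) {j : ℤ} (hj : 0 ≤ j) : Near w (2 * j) (pk k w j) := by
  unfold Near pk
  rcases cr_all k with ⟨⟨a, b⟩, -⟩ | ⟨⟨a, b⟩, -⟩ | ⟨⟨a, b⟩, -⟩ | ⟨⟨a, b⟩, -⟩ <;> rw [a, b, abs_le, abs_le] <;>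
    simp only <;> omega

/-- far from the mark is far from the wall point -/
lemma far_pk {k : ℤ} {w y : ℤ × ℤ} {j m R : ℤ} (hj : 0 ≤ j) (hR : j + m ≤ R) (hy : Far w R y) :
    Far (pk k w j) m y := by
  unfold Far pk at *
  rw [le_abs, le_abs] at hy
  rcases cr_all k with ⟨⟨a, b⟩, -⟩ | ⟨⟨a, b⟩, -⟩ | ⟨⟨a, b⟩, -⟩ | ⟨⟨a, b⟩, -⟩ <;> rw [a, b, le_abs, le_abs] <;>
    simp only <;> omega

/-- the arm at the wall point -/
lemma AE_of {k : ℤ} {x y : ℤ × ℤ} {m : ℤ} (hm : 0 ≤ m) {η : Finset (ℤ × ℤ)} (h1 : Co η x y)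
    (hy : Far x m y) (hη : ∀ l ∈ η, l ∈ BR x m → l ∈ ω ∧ 2 * cr (k + 1) x ≤ cr (k + 1) l) :
    AE k x m ω := by
  rcases eq_or_lt_of_le hm with rfl | hm
  · exact ⟨x, by unfold Far; simp, Co.refl _ _⟩
  · obtain ⟨v', hv', c1⟩ := open_exit (M := m) h1 (o := x) (by simp [hm]) hy
    refine ⟨v', hv', c1.mono ?_⟩
    intro l hl
    obtain ⟨i1, i2⟩ := mem_inter.1 hl
    have i3 := hη l i1 i2
    exact mem_inter.2 ⟨i3.1, mem_HB.2 ⟨i2, i3.2⟩⟩

/-- **(F2)** -/
theorem near_or {j R : ℤ} (hh : 2 < h) (hω : ω ⊆ EE S h) (hj : 1 ≤ j) (hjR : 2 * j < R)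
    (hR : R ≤ h - 1) (hC : Co (ω ∪ W0 S h) (pk (S.k 0) (v1 S h) j) (v1 S h))
    (hX : ¬ XE (S.k 0) (v1 S h) j R ω) {m : ℤ} (hm : 0 ≤ m) (hmj : m ≤ j) :
    AE (S.k 0) (pk (S.k 0) (v1 S h) j) m ω ∧
      UG (PK (S.k 0)) (dK (S.k 0)) (v1 S h) (2 * j) R ω := by
  set k := S.k 0 with hk
  set x := pk k (v1 S h) j with hx
  obtain ⟨p1, p2⟩ := pk_cr k (v1 S h) j
  rw [← hx] at p1 p2
  have hxc : cr k (v1 S h) ≤ cr k x ∧ cr (k + 1) (v1 S h) ≤ cr (k + 1) x := by omega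
  have hfar : ∃ y, Far (v1 S h) R y ∧ Co (ω ∩ QB k (v1 S h) R) x y := by
    by_contra hcon
    push Not at hcon
    have key : ∀ y, Co (ω ∪ W0 S h) x y → Co (ω ∩ QB k (v1 S h) R) x y := by
      intro y hy
      induction hy with
      | refl => exact Co.refl _ _
      | @tail p r _ hpr ih =>
        have g1 : ¬ Far (v1 S h) R p := fun g => hcon p g ih
        have g2 := (QB_co hxc ih).1
        have hB : p + r ∈ BR (v1 S h) R ∧ (p.1 + p.2 + (r.1 + r.2)) % 2 = 1 := by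
          have i1 := unit_cases hpr.1
          unfold Far at g1
          rw [le_abs, le_abs] at g1
          rw [mem_BR]
          simp only [Prod.fst_add, Prod.snd_add]
          omega
        rcases mem_union.1 hpr.2 with g | g
        · refine ih.tail ⟨hpr.1, mem_inter.2 ⟨g, mem_QB.2 ⟨hB.1, ?_⟩⟩⟩
          exact (mem_EE_near (by omega) (BR_mono (by omega) hB.1)).1 (hω g)
        · exfalso
          have i2 := (W0_near (by omega : 0 < h) g (BR_mono hR hB.1)).1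
          rw [← hk, cr_add] at i2
          have i3 := (cr_unit k hpr.1).1
          exact hX ⟨p, by omega, ih⟩
    exact hX ⟨v1 S h, rfl, key _ hC⟩
  obtain ⟨y, hy, hxy⟩ := hfar
  constructor
  · refine AE_of hm hxy (far_pk (by omega) (by omega) hy) fun l hl _ => ?_
    obtain ⟨i1, i2⟩ := mem_inter.1 hl
    refine ⟨i1, ?_⟩
    rw [p2]
    exact (mem_QB.1 i2).2.2
  · refine UG_intro (a := QB k (v1 S h) R) hjR (near_pk k (v1 S h) (by omega)) hy hxy
      (fun z hz _ => ?_) (fun z z' _ _ hzz => ?_) (fun l hl _ _ => (mem_QB.1 hl).2)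
    · have g := (QB_co hxc hz).1
      unfold PK
      rcases lt_or_eq_of_le g.1 with i | i
      · exact i
      · exact absurd ⟨z, i.symm, hz⟩ hX
    · rw [mem_AG] at hzz
      exact mem_QB.2 ⟨hzz.1.1, hzz.2⟩

/-- **(F3)** -/
theorem far_or {j : ℤ} (hh : 2 < h) (hω : ω ⊆ EE S h) (hj : 1 ≤ j) (hjR : 2 * j < h - 2)
    (hC : Co (ω ∪ W0 S h) (pk (S.k 0) (v1 S h) j) (v3 S h))
    (hT : ¬ Co (ω ∪ W0 S h) (v3 S h) (v1 S h)) {m : ℤ} (hm : 0 ≤ m) (hmj : m ≤ j) :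
    AE (S.k 0) (pk (S.k 0) (v1 S h) j) m ω ∧
      UG (PK (S.k 0)) (dK (S.k 0)) (v1 S h) (2 * j) (h - 2) ω := by
  obtain ⟨p1, p2⟩ := pk_cr (S.k 0) (v1 S h) j
  have hno : ¬ Co (ω ∪ W0 S h) (pk (S.k 0) (v1 S h) j) (v1 S h) := fun g => hT (hC.symm.trans g)
  have hf := v3_far (S := S) (h := h) (by omega)
  have hf2 : Far (v1 S h) (h - 2) (v3 S h) := by
    unfold Far at hf ⊢
    omega
  constructor
  · refine AE_of hm (co_far (by omega) hC hno) (far_pk (by omega) (by omega) hf2)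
      fun l hl hB => ?_
    have hB' : l ∈ BR (v1 S h) (h - 1) := by
      rw [mem_BR] at hB ⊢
      unfold pk at hB
      rcases cr_all (S.k 0) with ⟨⟨a, b⟩, -⟩ | ⟨⟨a, b⟩, -⟩ | ⟨⟨a, b⟩, -⟩ | ⟨⟨a, b⟩, -⟩ <;>
      rw [a, b] at hB <;> simp only at hB <;> omega
    rcases mem_union.1 hl with g | g
    · refine ⟨g, ?_⟩
      rw [p2]
      exact ((mem_EE_near (by omega) (BR_mono (by omega) hB')).1 (hω g)).2
    · unfold WF at g
      exact absurd hB' (Finset.mem_sdiff.1 g).2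
  · exact UG_of hh hω hjR (near_pk _ _ (by omega)) (by omega) hf2 hC hno

/-- **(F5)** -/
theorem flip_or {R : ℤ} (hh : 2 < h) (hω : ω ⊆ EE S h) (hR : R < h - 2)
    (h1 : TT S h (ω ∪ QB (S.k 0) (v1 S h) R)) (h0 : ¬ TT S h (ω \ QB (S.k 0) (v1 S h) R)) :
    UG (PK (S.k 0)) (dK (S.k 0)) (v1 S h) R (h - 2) ω := by
  unfold TT at h1 h0
  obtain ⟨z, z', g1, g2, g3, -, -⟩ := exit_co
    (X := fun y => Co (ω \ QB (S.k 0) (v1 S h) R ∪ W0 S h) (v3 S h) y) h1 (Co.refl _ _) h0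
  have hQ : z + z' ∈ QB (S.k 0) (v1 S h) R := by
    by_contra hcon
    apply g2
    refine g1.tail ⟨g3.1, ?_⟩
    rcases mem_union.1 g3.2 with g | g
    · rcases mem_union.1 g with g | g
      · exact mem_union_left _ (Finset.mem_sdiff.2 ⟨g, hcon⟩)
      · exact absurd g hcon
    · exact mem_union_right _ g
  rw [mem_QB] at hQ
  have hf := v3_far (S := S) (h := h) (by omega)
  have hf2 : Far (v1 S h) (h - 2) (v3 S h) := by
    unfold Far at hf ⊢
    omega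
  have hz : Near (v1 S h) R z := by
    have := (BR_ends g3.1 hQ.1).1
    rw [inR_iff] at this
    unfold Near
    rw [abs_le, abs_le]
    omega
  have key := UG_of (ω := ω \ QB (S.k 0) (v1 S h) R) hh (sdiff_subset.trans hω) hR hz
    (dK_ends g3.1 hQ.2).1 hf2 g1.symm (fun g => h0 (g1.trans g))
  rw [UG_local] at key ⊢
  have e1 : (ω \ QB (S.k 0) (v1 S h) R) ∩ AG (dK (S.k 0)) (v1 S h) R (h - 2) =
      ω ∩ AG (dK (S.k 0)) (v1 S h) R (h - 2) := by
    ext l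
    rw [mem_inter, mem_inter, Finset.mem_sdiff]
    constructor
    · rintro ⟨⟨i1, -⟩, i2⟩; exact ⟨i1, i2⟩
    · rintro ⟨i1, i2⟩
      refine ⟨⟨i1, fun i3 => ?_⟩, i2⟩
      exact (mem_AG.1 i2).1.2 (mem_QB.1 i3).1
  rw [← e1]
  exact key

end Pool.Agent.H42.FM
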