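import Mathlib
import Pool.Agent.H42.FM.Ev

set_option autoImplicit false
open Finset

/-! # Decoupling at the first mark

`markBound_dec` : near the mark, the event that the wall point is connected to the arc IV is almost
independent of the event that the arcs II and IV are connected, and a connection to the arc II which
avoids the arc IV is negligible. -/

namespace Pool.Agent.H42.FM

open Pool.Agent.H75.Perc hiding WL CT hh EE
open Pool.Agent.H75.TwoArm Pool.Agent.H75.Four Pool.Agent.H69.Q1 Pool.Agent.Q1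
open Pool.Agent.Q1.M4 (Cell Good IsSide nextSide tail head PType Adj4 Conn4)
open Pool.Agent.H33.Q1
open Pool.Agent.H21.FM
open Pool.Agent.H60.Q1 (Near Far open_exit)
open Pool.Agent.H60.Q1.Corn (UG AG mem_AG UG_intro UG_local ug ug_nonneg PrP_UG)
open Pool.Agent.H99.NC (BR inR inR_iff PrP_half)
open Pool.Agent.H20.Q1 (BR_mono BR_ends)

/-- three strands at the mark, with a ratio -/
theorem mark_small {ε : ℝ} (hε : 0 < ε) : ∃ t : ℝ, 0 < t ∧ t ≤ 1 / 2 ∧ ∀ (k : ℤ) (w : ℤ × ℤ)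
    (ρ R : ℤ), 1 ≤ ρ → (ρ : ℝ) ≤ t * R → ug (PK k) (dK k) w ρ R ≤ ε := by
  obtain ⟨C, α, hC, hα, h⟩ := mark_le
  refine ⟨min (1 / 2) (ε / C), by positivity, min_le_left _ _, fun k w ρ R h1 h2 => ?_⟩
  have hρ : (1 : ℝ) ≤ ρ := by exact_mod_cast h1
  have ht0 : (0 : ℝ) < min (1 / 2) (ε / C) := by positivity
  have hR : (0 : ℝ) < R := by
    by_contra hcon
    push Not at hcon
    have : min (1 / 2) (ε / C) * (R : ℝ) ≤ 0 := mul_nonpos_of_nonneg_of_nonpos ht0.le hcon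
    linarith
  have hle : (ρ : ℝ) ≤ R := by
    have : min (1 / 2) (ε / C) * (R : ℝ) ≤ 1 / 2 * R :=
      mul_le_mul_of_nonneg_right (min_le_left _ _) hR.le
    linarith
  have h3 := h k w ρ R h1 (by exact_mod_cast hle)
  have hx0 : (0 : ℝ) < (ρ : ℝ) / R := by positivity
  have hx1 : (ρ : ℝ) / R ≤ 1 := (div_le_one hR).2 hle
  have h4 : ((ρ : ℝ) / R) ^ (1 + α) ≤ ((ρ : ℝ) / R) ^ (1 : ℝ) :=
    Real.rpow_le_rpow_of_exponent_ge hx0 hx1 (by linarith)
  rw [Real.rpow_one] at h4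
  have h5 : (ρ : ℝ) / R ≤ ε / C := by
    rw [div_le_iff₀ hR]
    exact h2.trans (mul_le_mul_of_nonneg_right (min_le_right _ _) hR.le)
  calc ug (PK k) (dK k) w ρ R ≤ C * ((ρ : ℝ) / R) ^ (1 + α) := h3
    _ ≤ C * ((ρ : ℝ) / R) := mul_le_mul_of_nonneg_left h4 hC.le
    _ ≤ C * (ε / C) := mul_le_mul_of_nonneg_left h5 hC.le
    _ = ε := by field_simp

lemma Pr_not' {E : Finset (ℤ × ℤ)} (A : Finset (ℤ × ℤ) → Prop) :
    Pr E (fun ω => ¬ A ω) = 1 - Pr E A := by
  rw [← PrP_half, ← PrP_half, Pool.Agent.H99.NC.PrP_not]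

/-- `Pr A = Pr (A and B) + Pr (A and not B)` -/
lemma Pr_add_not (E : Finset (ℤ × ℤ)) (A B : Finset (ℤ × ℤ) → Prop) :
    Pr E (fun ω => A ω ∧ B ω) + Pr E (fun ω => A ω ∧ ¬ B ω) = Pr E A := by
  rw [← PrP_half, ← PrP_half, ← PrP_half,
    ← Pool.Agent.H99.NC.PrP_add_disj (fun ω _ h h' => h'.2 h.2)]
  exact Pool.Agent.H99.NC.PrP_congr fun ω _ => by tauto

/-- independence of the inside and the outside -/
lemma Pr_in_out {E F : Finset (ℤ × ℤ)} (hF : F ⊆ E) {A B : Finset (ℤ × ℤ) → Prop}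
    (hA : ∀ ω, A ω ↔ A (ω ∩ F)) (hB : ∀ ω, B ω ↔ B (ω \ F)) :
    Pr E (fun ω => A ω ∧ B ω) = Pr E A * Pr E B := by
  have e1 : Pr E A = Pr F A := by
    rw [← Pr_restrict hF A]
    exact Pr_congr fun ω _ => hA ω
  have e2 : Pr E B = Pr (E \ F) B := by
    rw [← Pr_restrict (sdiff_subset : E \ F ⊆ E) B]
    refine Pr_congr fun ω hω => ?_
    rw [hB ω]
    have : ω \ F = ω ∩ (E \ F) := by
      ext l
      rw [Finset.mem_sdiff, mem_inter, Finset.mem_sdiff]
      constructor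
      · rintro ⟨h1, h2⟩; exact ⟨h1, hω h1, h2⟩
      · rintro ⟨h1, -, h2⟩; exact ⟨h1, h2⟩
    rw [this]
  rw [e1, e2, ← Pr_split hF]
  refine Pr_congr fun ω _ => ?_
  rw [hA ω, hB ω]

variable {S : Shape} {h : ℕ}

/-- the probability bounds at a wall point near the mark -/
theorem dec_bound {j : ℕ} {R : ℤ} {cg : ℝ}
    (hglue : ∀ (k : ℤ) (w : ℤ × ℤ) (j R : ℤ) (E : Finset (ℤ × ℤ)), 1 ≤ j →
      2 * j ≤ R → QB k w R ⊆ E →
      cg * Pr E (AE k (pk k w j) (3 * (j / 3))) ≤ Pr E (XE k w j R))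
    (hh : 2 < h) (hj : 1 ≤ j) (hjR : 2 * (j : ℤ) < R) (hR : R < h - 2) {ε : ℝ}
    (hu1 : ug (PK (S.k 0)) (dK (S.k 0)) (v1 S h) (2 * j) R ≤ cg * (ε / 2))
    (hu2 : ug (PK (S.k 0)) (dK (S.k 0)) (v1 S h) (2 * j) (h - 2) ≤ cg * ε)
    (hu3 : ug (PK (S.k 0)) (dK (S.k 0)) (v1 S h) R (h - 2) ≤ ε / 2) :
    |mC S h (wv h (S.P.side 0) j) - qn S h * (mA S h (wv h (S.P.side 0) j) +
      mC S h (wv h (S.P.side 0) j))| ≤
      ε * (mA S h (wv h (S.P.side 0) j) + mC S h (wv h (S.P.side 0) j)) ∧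
    mD S h (wv h (S.P.side 0) j) ≤
      ε * (mA S h (wv h (S.P.side 0) j) + mC S h (wv h (S.P.side 0) j)) := by
  have hjz : (1 : ℤ) ≤ j := by exact_mod_cast hj
  set k := S.k 0 with hk
  set w := v1 S h with hw
  set E := EE S h with hE
  set x := pk k w j with hx
  set m := 3 * ((j : ℤ) / 3) with hm
  have hm0 : 0 ≤ m := by omega
  have hmj : m ≤ j := by omega
  have hQE : QB k w R ⊆ E := QB_sub_EE (by omega) (by omega)
  set v := wv h (S.P.side 0) j with hv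
  have hvx : v = x := wv_pk j
  -- the events
  set A : Finset (ℤ × ℤ) → Prop := AE k x m with hA
  set X : Finset (ℤ × ℤ) → Prop := XE k w j R with hX
  set Y0 : Finset (ℤ × ℤ) → Prop := fun ω => TT S h (ω \ QB k w R) with hY0
  set Y1 : Finset (ℤ × ℤ) → Prop := fun ω => TT S h (ω ∪ QB k w R) with hY1
  set a := Pr E A with ha
  set p := Pr E X with hp
  set u1 := ug (PK k) (dK k) w (2 * j) R with hu1d
  set u2 := ug (PK k) (dK k) w (2 * j) (h - 2) with hu2d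
  set u3 := ug (PK k) (dK k) w R (h - 2) with hu3d
  have ha0 : 0 ≤ a := Pr_nonneg _ _
  have hp0 : 0 ≤ p := Pr_nonneg _ _
  have hu10 : 0 ≤ u1 := ug_nonneg
  have hu20 : 0 ≤ u2 := ug_nonneg
  have hu30 : 0 ≤ u3 := ug_nonneg
  have hgl : cg * a ≤ p := hglue k w j R E hjz (by omega) hQE
  -- the mass
  have hM : mA S h v + mC S h v = Pr E (C1 S h v) := Pr_add_not E (C1 S h v) (TT S h)
  set M := Pr E (C1 S h v) with hMd
  -- arm and annulus are independent
  have hsubA : HB k x m ⊆ QB k w (2 * j) := HB_sub hmj (by omega)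
  have hAloc : ∀ ω, A ω ↔ A (ω ∩ QB k w (2 * j)) := by
    intro ω
    have e : ω ∩ QB k w (2 * j) ∩ HB k x m = ω ∩ HB k x m := by
      rw [inter_assoc, inter_eq_right.2 hsubA]
    rw [hA]
    unfold AE
    rw [e]
  have hind : ∀ R' : ℤ, 2 * (j : ℤ) < R' → R' ≤ h - 2 →
      Pr E (fun ω => A ω ∧ UG (PK k) (dK k) w (2 * j) R' ω) =
        a * ug (PK k) (dK k) w (2 * j) R' := by
    intro R' h1 h2
    have hAG : AG (dK k) w (2 * j) R' ⊆ E := by
      intro l hl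
      rw [mem_AG] at hl
      exact (mem_EE_near (by omega) (BR_mono (by omega) hl.1.1)).2 hl.2
    have hUG : Pr E (UG (PK k) (dK k) w (2 * j) R') = ug (PK k) (dK k) w (2 * j) R' := by
      rw [← PrP_half]
      exact PrP_UG hAG
    have hin := Pr_in_out (E := E) (F := QB k w (2 * j)) (QB_sub_EE (by omega) (by omega))
      (A := A) (B := UG (PK k) (dK k) w (2 * j) R') hAloc (by
        intro ω
        have e1 : (ω \ QB k w (2 * j)) ∩ AG (dK k) w (2 * j) R' =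
            ω ∩ AG (dK k) w (2 * j) R' := by
          ext l
          rw [mem_inter, mem_inter, Finset.mem_sdiff]
          constructor
          · rintro ⟨⟨i1, -⟩, i2⟩; exact ⟨i1, i2⟩
          · rintro ⟨i1, i2⟩
            refine ⟨⟨i1, fun i3 => ?_⟩, i2⟩
            exact (mem_AG.1 i2).1.2 (mem_QB.1 i3).1
        rw [UG_local, UG_local (ω := ω \ QB k w (2 * j)), e1])
    rw [hin, hUG]
  -- inside and outside are independent
  have hXloc : ∀ ω, X ω ↔ X (ω ∩ QB k w R) := fun ω => XE_local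
  have hY0loc : ∀ ω : Finset (ℤ × ℤ), ¬ Y0 ω ↔ ¬ Y0 (ω \ QB k w R) := by
    intro ω
    rw [hY0]
    simp only
    rw [Finset.sdiff_idem]
  have hY1loc : ∀ ω : Finset (ℤ × ℤ), ¬ Y1 ω ↔ ¬ Y1 (ω \ QB k w R) := by
    intro ω
    rw [hY1]
    simp only
    rw [sdiff_union_self_eq_union]
  have i0 : Pr E (fun ω => X ω ∧ ¬ Y0 ω) = p * Pr E (fun ω => ¬ Y0 ω) :=
    Pr_in_out hQE hXloc hY0loc
  have i1 : Pr E (fun ω => X ω ∧ ¬ Y1 ω) = p * Pr E (fun ω => ¬ Y1 ω) :=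
    Pr_in_out hQE hXloc hY1loc
  have inc : ∀ {ω ω' : Finset (ℤ × ℤ)}, ω ⊆ ω' → TT S h ω → TT S h ω' := fun hs ht =>
    Co.mono (union_subset_union_left hs) ht
  -- the difference of the two outside events
  have d1 : Pr E (fun ω => ¬ Y0 ω) ≤ Pr E (fun ω => ¬ Y1 ω) + u3 := by
    have e3 : Pr E (UG (PK k) (dK k) w R (h - 2)) = u3 := by
      rw [← PrP_half]
      refine PrP_UG ?_
      intro l hl
      rw [mem_AG] at hl
      exact (mem_EE_near (by omega) (BR_mono (by omega) hl.1.1)).2 hl.2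
    rw [← e3]
    refine le_trans (Pr_mono (B := fun ω => ¬ Y1 ω ∨ UG (PK k) (dK k) w R (h - 2) ω) ?_)
      (Pr_or_le E _ _)
    intro ω hω h0
    by_cases h1 : Y1 ω
    · exact Or.inr (flip_or hh hω hR h1 h0)
    · exact Or.inl h1
  have d2 : qn S h ≤ Pr E (fun ω => ¬ Y0 ω) := Pr_mono fun ω _ h0 h1 =>
    h0 (inc sdiff_subset h1)
  have d3 : Pr E (fun ω => ¬ Y1 ω) ≤ qn S h := Pr_mono fun ω _ h0 h1 =>
    h0 (inc subset_union_left h1)
  have hq0 : 0 ≤ qn S h := Pr_nonneg _ _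
  have hq1 : qn S h ≤ 1 := Pr_le_one _ _
  -- bounds for the mass
  have hXC : ∀ ω, X ω → C1 S h v ω := by
    intro ω hω
    have := C1_of_XE (S := S) (h := h) (by omega) hj (by omega) hω
    exact Co.mono (union_subset_union_left inter_subset_left) this
  have m1 : p ≤ M := Pr_mono fun ω _ hω => hXC ω hω
  have m2 : M ≤ p + a * u1 := by
    rw [← hind R hjR (by omega)]
    refine le_trans (Pr_mono (B := fun ω => X ω ∨ (A ω ∧ UG (PK k) (dK k) w (2 * j) R ω)) ?_)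
      (Pr_or_le E _ _)
    intro ω hω hc
    by_cases hx' : X ω
    · exact Or.inl hx'
    · refine Or.inr (near_or hh hω hjz hjR (by omega) ?_ hx' hm0 hmj)
      rw [hvx] at hc
      exact hc
  -- bounds for the mass C
  have c1 : p * Pr E (fun ω => ¬ Y1 ω) ≤ mC S h v := by
    rw [← i1]
    exact Pr_mono fun ω _ hω => ⟨hXC ω hω.1, fun h1 => hω.2 (inc subset_union_left h1)⟩
  have c2 : mC S h v ≤ p * Pr E (fun ω => ¬ Y0 ω) + a * u1 := by
    rw [← i0, ← hind R hjR (by omega)]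
    refine le_trans (Pr_mono (B := fun ω => (X ω ∧ ¬ Y0 ω) ∨
      (A ω ∧ UG (PK k) (dK k) w (2 * j) R ω)) ?_) (Pr_or_le E _ _)
    rintro ω hω ⟨hc, ht⟩
    by_cases hx' : X ω
    · exact Or.inl ⟨hx', fun h1 => ht (inc sdiff_subset h1)⟩
    · refine Or.inr (near_or hh hω hjz hjR (by omega) ?_ hx' hm0 hmj)
      rw [hvx] at hc
      exact hc
  -- bound for the mass D
  have f1 : mD S h v ≤ a * u2 := by
    rw [← hind (h - 2) (by omega) le_rfl]
    refine Pr_mono ?_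
    rintro ω hω ⟨hc, ht⟩
    rw [hvx] at hc
    exact far_or hh hω hjz (by omega) hc ht hm0 hmj
  -- conclusion
  rw [hM]
  have b1 : a * u1 ≤ p * (ε / 2) := by
    calc a * u1 ≤ a * (cg * (ε / 2)) := mul_le_mul_of_nonneg_left hu1 ha0
      _ = (cg * a) * (ε / 2) := by ring
      _ ≤ p * (ε / 2) := by
        refine mul_le_mul_of_nonneg_right hgl ?_
        linarith
  have b2 : a * u2 ≤ p * ε := by
    calc a * u2 ≤ a * (cg * ε) := mul_le_mul_of_nonneg_left hu2 ha0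
      _ = (cg * a) * ε := by ring
      _ ≤ p * ε := by
        refine mul_le_mul_of_nonneg_right hgl ?_
        linarith
  have hε0 : 0 ≤ ε := by linarith
  have g1 : p * Pr E (fun ω => ¬ Y0 ω) ≤ p * (qn S h + ε / 2) :=
    mul_le_mul_of_nonneg_left (by linarith) hp0
  have g2 : p * (qn S h - ε / 2) ≤ p * Pr E (fun ω => ¬ Y1 ω) :=
    mul_le_mul_of_nonneg_left (by linarith) hp0
  have g3 : qn S h * p ≤ qn S h * M := mul_le_mul_of_nonneg_left m1 hq0
  have g4 : qn S h * M ≤ qn S h * p + a * u1 := by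
    have : qn S h * M ≤ qn S h * (p + a * u1) := mul_le_mul_of_nonneg_left m2 hq0
    have h2 : qn S h * (a * u1) ≤ 1 * (a * u1) :=
      mul_le_mul_of_nonneg_right hq1 (mul_nonneg ha0 hu10)
    nlinarith
  have g5 : p * ε ≤ ε * M := by
    rw [mul_comm]
    exact mul_le_mul_of_nonneg_left m1 hε0
  refine ⟨?_, by linarith⟩
  rw [abs_le]
  constructor
  · nlinarith
  · nlinarith

/-- **(P5), decoupling.** -/
theorem markBound_dec (S : Shape) : ∀ ε > (0 : ℝ), ∃ r > (0 : ℝ), ∃ H0 : ℕ, ∀ h : ℕ, H0 ≤ h →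
    ∀ j : ℕ, 1 ≤ j → (j : ℝ) ≤ r * h →
    |mC S h (wv h (S.P.side 0) j) - qn S h * (mA S h (wv h (S.P.side 0) j) +
      mC S h (wv h (S.P.side 0) j))| ≤
      ε * (mA S h (wv h (S.P.side 0) j) + mC S h (wv h (S.P.side 0) j)) ∧
    mD S h (wv h (S.P.side 0) j) ≤
      ε * (mA S h (wv h (S.P.side 0) j) + mC S h (wv h (S.P.side 0) j)) := by
  intro ε hε
  obtain ⟨cg, hcg, hglue⟩ := glue
  obtain ⟨t, ht0, ht1, ht⟩ := mark_small (show 0 < min (ε / 2) (cg * (ε / 2)) by positivity)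
  refine ⟨t ^ 2 / 8, by positivity, ⌈4 * (2 + 1 / t)⌉₊ + 10, fun h hH j hj hjr => ?_⟩
  have hh1 : (10 : ℝ) ≤ h := by
    have : 10 ≤ h := by omega
    exact_mod_cast this
  have hh2 : 4 * (2 + 1 / t) ≤ (h : ℝ) := by
    have h1 : 4 * (2 + 1 / t) ≤ (⌈4 * (2 + 1 / t)⌉₊ : ℝ) := Nat.le_ceil _
    have h2 : ((⌈4 * (2 + 1 / t)⌉₊ : ℕ) : ℝ) ≤ h := by
      have : ⌈4 * (2 + 1 / t)⌉₊ ≤ h := by omega
      exact_mod_cast this
    linarith
  have hj1 : (1 : ℝ) ≤ j := by exact_mod_cast hj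
  set R : ℤ := ⌊t * ((h : ℝ) - 2)⌋ with hR
  have hR1 : (R : ℝ) ≤ t * ((h : ℝ) - 2) := Int.floor_le _
  have hR2 : t * ((h : ℝ) - 2) - 1 < R := Int.sub_one_lt_floor _
  have hth : 8 * t + 4 ≤ t * h := by
    have : t * (4 * (2 + 1 / t)) = 8 * t + 4 := by
      field_simp
      ring
    rw [← this]
    exact mul_le_mul_of_nonneg_left hh2 ht0.le
  -- the radius of the wall point
  have hjR' : 2 * (j : ℝ) ≤ t * R := by
    have h1 : 2 * (j : ℝ) ≤ t * (t * h) / 4 := by nlinarith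
    have h2 : t * (t * ((h : ℝ) - 2) - 1) ≤ t * R := mul_le_mul_of_nonneg_left hR2.le ht0.le
    nlinarith
  have hRpos : (0 : ℝ) < R := by
    by_contra hcon
    push Not at hcon
    have : t * (R : ℝ) ≤ 0 := mul_nonpos_of_nonneg_of_nonpos ht0.le hcon
    linarith
  have hjR : 2 * (j : ℤ) < R := by
    have : 2 * (j : ℝ) < R := by nlinarith
    exact_mod_cast this
  have hRh : R < (h : ℤ) - 2 := by
    have : (R : ℝ) < (h : ℝ) - 2 := by nlinarith
    exact_mod_cast this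
  have a1 := ht (S.k 0) (v1 S h) (2 * j) R (by omega) (by push_cast; exact hjR')
  have a2 := ht (S.k 0) (v1 S h) (2 * j) ((h : ℤ) - 2) (by omega) (by
    push_cast
    nlinarith)
  have a3 := ht (S.k 0) (v1 S h) R ((h : ℤ) - 2) (by omega) (by
    push_cast
    exact hR1)
  refine dec_bound hglue (by omega) hj hjR hRh (a1.trans (min_le_right _ _)) ?_
    (a3.trans (min_le_left _ _))
  refine (a2.trans (min_le_right _ _)).trans ?_
  exact mul_le_mul_of_nonneg_left (by linarith) hcg.le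

end Pool.Agent.H42.FM
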