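import Mathlib
import Pool.Agent.H44.FM.MarkDefs
import Pool.Agent.H44.FM.Cvx

set_option autoImplicit false
open Finset

/-! # The open case at all four marks -/

namespace Pool.Agent.H42.FM

open Pool.Agent.H75.Perc hiding WL CT hh EE sh
open Pool.Agent.H75.TwoArm Pool.Agent.H75.Four Pool.Agent.H69.Q1 Pool.Agent.Q1
open Pool.Agent.Q1.M4 (Cell Good IsSide nextSide tail head PType Adj4 Conn4)
open Pool.Agent.H33.Q1
open Pool.Agent.H21.FM
open Pool.Agent.H5.Q1 (oc vx_oc ty_oc fi_oc oc_congr oc_inj eq_oc)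
open Pool.Agent.H60.Q1 (Near Far)
open Pool.Agent.H99.NC (BR inR inR_iff)
open Pool.Agent.H20.Q1 (BR_mono BR_ends)
open Pool.Agent.H44.FM

variable {S : Shape} {h : ℕ}

/-! ### The wired arcs are connected -/

lemma wv_step (hh : 0 < h) {i : ℕ} (hi : LY (2 * h) (S.P.side i) ⊆ W0 S h) {j : ℕ} (hj : j < h) :
    Co (W0 S h) (wv h (S.P.side i) (j + 1)) (wv h (S.P.side i) j) := by
  set s := S.P.side i with hs
  have a1 := hi (ly_out hh s hj)
  have a2 := hi (ly_out' hh s (Nat.succ_pos j) hj)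
  have e1 : wv h s (j + 1) + dir (s.2 - 1) = wv h s j + dir s.2 := by
    rw [wv_succ, dir_pred]
    abel
  have g1 : Co (W0 S h) (wv h s (j + 1)) (wv h s (j + 1) + dir (s.2 - 1)) := by
    refine Relation.ReflTransGen.single ⟨?_, ?_⟩
    · rw [add_sub_cancel_left]; exact isUnit4_dir _
    · rw [← add_assoc]; exact a2
  have g2 : Co (W0 S h) (wv h s j + dir s.2) (wv h s j) := by
    refine Relation.ReflTransGen.single ⟨?_, ?_⟩
    · rw [sub_add_cancel_left]; exact isUnit4_neg (isUnit4_dir _)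
    · rw [add_comm, ← add_assoc]; exact a1
  rw [e1] at g1
  exact g1.trans g2

lemma W0_LY {i : ℕ} (hi : (S.m2 ≤ i ∧ i < S.m3) ∨ (S.m4 ≤ i ∧ i < S.N)) :
    LY (2 * h) (S.P.side i) ⊆ W0 S h := fun _ hl => mem_W0.2 ⟨i, hi, hl⟩

/-- all vertices of a wired side are connected to its head -/
lemma wv_head (hh : 0 < h) {i : ℕ} (hi : LY (2 * h) (S.P.side i) ⊆ W0 S h) :
    ∀ n j : ℕ, j + n = h → Co (W0 S h) (wv h (S.P.side i) j) (wv h (S.P.side i) h) := by
  intro n
  induction n with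
  | zero =>
    intro j hj
    rw [show j = h by omega]
    exact Co.refl _ _
  | succ n ih =>
    intro j hj
    exact (wv_step hh hi (by omega : j < h)).symm.trans (ih (j + 1) (by omega))

lemma wv_tail (hh : 0 < h) {i : ℕ} (hi : LY (2 * h) (S.P.side i) ⊆ W0 S h) {j : ℕ} (hj : j ≤ h) :
    Co (W0 S h) (wv h (S.P.side i) j) (wv h (S.P.side i) 0) :=
  (wv_head hh hi (h - j) j (by omega)).trans (wv_head hh hi h 0 (by omega)).symm

lemma wv_next (i : ℕ) : wv h (S.P.side i) h = wv h (S.P.side (i + 1)) 0 := by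
  rw [wv_last h S.P.Q, ← S.succ]

/-- along a wired arc -/
lemma arc_co (hh : 0 < h) {a b : ℕ} (hw : ∀ i, a ≤ i → i < b → LY (2 * h) (S.P.side i) ⊆ W0 S h) :
    ∀ n i : ℕ, a ≤ i → i + n + 1 = b → ∀ j ≤ h,
      Co (W0 S h) (wv h (S.P.side i) j) (wv h (S.P.side b) 0) := by
  intro n
  induction n with
  | zero =>
    intro i hi hb j hj
    have h1 := wv_head hh (hw i hi (by omega)) (h - j) j (by omega)
    rw [wv_next, show i + 1 = b by omega] at h1
    exact h1
  | succ n ih =>
    intro i hi hb j hj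
    have h1 := wv_head hh (hw i hi (by omega)) (h - j) j (by omega)
    rw [wv_next] at h1
    exact h1.trans (ih (i + 1) (by omega) (by omega) 0 (Nat.zero_le _))

lemma arc_co3 (hh : 0 < h) {i : ℕ} (h1 : S.m2 ≤ i) (h2 : i < S.m3) {j : ℕ} (hj : j ≤ h) :
    Co (W0 S h) (wv h (S.P.side i) j) (v3 S h) :=
  arc_co hh (a := S.m2) (b := S.m3) (fun _ g1 g2 => W0_LY (Or.inl ⟨g1, g2⟩)) (S.m3 - 1 - i) i h1
    (by omega) j hj

lemma v1_N : v1 S h = wv h (S.P.side S.P.N) 0 := by
  unfold v1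
  rw [side_N]
  have e : S.P.side 0 = ((S.P.side 0).1, (S.P.side 0).2) := rfl
  conv_lhs => rw [e]
  exact wv_congr h (by omega) 0

lemma arc_co1 (hh : 0 < h) {i : ℕ} (h1 : S.m4 ≤ i) (h2 : i < S.N) {j : ℕ} (hj : j ≤ h) :
    Co (W0 S h) (wv h (S.P.side i) j) (v1 S h) := by
  rw [v1_N]
  exact arc_co hh (a := S.m4) (b := S.P.N) (fun _ g1 g2 => W0_LY (Or.inr ⟨g1, g2⟩))
    (S.N - 1 - i) i h1 (by have : S.N = S.P.N := rfl; omega) j hj

/-! ### The arc near a mark -/

/-- the vertex which carries the wired arc at the mark -/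
def hm (S : Shape) (h : ℕ) (m : Fin 4) : ℤ × ℤ := if m = 0 ∨ m = 3 then v1 S h else v3 S h

/-- the vertex which carries the other wired arc -/
def om (S : Shape) (h : ℕ) (m : Fin 4) : ℤ × ℤ := if m = 0 ∨ m = 3 then v3 S h else v1 S h

lemma ms_pred (S : Shape) : ∀ m : Fin 4, m ≠ 0 → 0 < ms S m ∧
    S.P.side (ms S m) = ((S.P.side (ms S m - 1)).1, (S.P.side (ms S m - 1)).2 + 1) := by
  intro m hm0
  have h02 := S.h02
  have h23 := S.h23
  have h34 := S.h34
  have hm4 : S.m4 = S.P.m := rfl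
  fin_cases m
  · exact absurd rfl hm0
  · refine ⟨h02, ?_⟩
    have := S.cvx (S.m2 - 1) (Or.inl (by omega))
    rw [Nat.sub_add_cancel h02] at this
    exact this
  · refine ⟨by show 0 < S.m3; omega, ?_⟩
    have := S.cvx (S.m3 - 1) (Or.inr (Or.inl (by omega)))
    rw [Nat.sub_add_cancel (by omega)] at this
    exact this
  · refine ⟨by show 0 < S.m4; omega, ?_⟩
    have := S.cvx (S.m4 - 1) (Or.inr (Or.inr (Or.inl (by omega))))
    rw [Nat.sub_add_cancel (by omega)] at this
    exact this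

/-- the corner at the mark is convex -/
theorem cv_mark (S : Shape) (m : Fin 4) : Cv S.P.Q (S.P.side (ms S m)) := by
  by_cases hm0 : m = 0
  · subst hm0
    refine Cv.of S.P.good (isSide_side' S.P (S.P.N - 1)) (isSide_side' S.P 0) ?_ (Or.inr ?_)
    · rw [side_pred]; rfl
    · rw [side_pred]; rfl
  · obtain ⟨h1, h2⟩ := ms_pred S m hm0
    refine Cv.of S.P.good (isSide_side' S.P (ms S m - 1)) (isSide_side' S.P (ms S m)) ?_
      (Or.inl ?_)
    · rw [h2]
    · rw [h2]

lemma ms_lt (S : Shape) (m : Fin 4) : ms S m < S.P.N := by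
  have h02 := S.h02
  have h23 := S.h23
  have h34 := S.h34
  have hmN := S.P.hmN
  have hm4 : S.m4 = S.P.m := rfl
  fin_cases m
  · show 0 < S.P.N; omega
  · show S.m2 < S.P.N; omega
  · show S.m3 < S.P.N; omega
  · show S.m4 < S.P.N; omega

/-- the wired sides at the mark belong to the arc of `hm` -/
lemma near_side (hh : 0 < h) (m : Fin 4) {i : ℕ}
    (hi : (S.m2 ≤ i ∧ i < S.m3) ∨ (S.m4 ≤ i ∧ i < S.N))
    (h1 : (S.P.side i).1 = (S.P.side (ms S m)).1)
    (h2 : ((S.P.side i).2 - (S.P.side (ms S m)).2) % 4 = 0 ∨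
      ((S.P.side i).2 - (S.P.side (ms S m)).2 + 1) % 4 = 0) {j : ℕ} (hj : j ≤ h) :
    Co (W0 S h) (wv h (S.P.side i) j) (hm S h m) := by
  have h02 := S.h02
  have h23 := S.h23
  have h34 := S.h34
  have hmN := S.P.hmN
  have hm4 : S.m4 = S.P.m := rfl
  have hSN : S.N = S.P.N := rfl
  have hiN : i < S.P.N := by omega
  have hidx : i = ms S m ∨ (m ≠ 0 ∧ i = ms S m - 1) ∨ (m = 0 ∧ i = S.P.N - 1) := by
    rcases h2 with h2 | h2
    · exact Or.inl (side_inj hiN (ms_lt S m) h1 h2)
    · right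
      by_cases hm0 : m = 0
      · right
        refine ⟨hm0, side_inj hiN (by omega) ?_ ?_⟩
        · rw [side_pred, h1, hm0]; rfl
        · rw [side_pred]
          subst hm0
          have e : (S.P.side (ms S 0)).2 = (S.P.side 0).2 := rfl
          rw [e] at h2
          simp only
          omega
      · left
        obtain ⟨g1, g2⟩ := ms_pred S m hm0
        have := ms_lt S m
        refine ⟨hm0, side_inj hiN (by omega) ?_ ?_⟩
        · rw [h1, g2]
        · rw [g2] at h2
          simp only at h2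
          omega
  unfold hm
  fin_cases m
  · have e : ms S 0 = 0 := rfl
    simp only [Fin.zero_eta, Fin.isValue, ne_eq, not_true_eq_false, false_and, true_and,
      false_or] at hidx
    rw [e] at hidx
    rw [if_pos (by simp)]
    exact arc_co1 hh (by omega) (by omega) hj
  · have e : ms S 1 = S.m2 := rfl
    simp only [Fin.mk_one, Fin.isValue, ne_eq, one_ne_zero, not_false_eq_true, true_and,
      false_and, or_false] at hidx
    rw [e] at hidx
    rw [if_neg (by simp)]
    exact arc_co3 hh (by omega) (by omega) hj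
  · have e : ms S 2 = S.m3 := rfl
    simp only [Fin.reduceFinMk, Fin.isValue, ne_eq, Fin.reduceEq, not_false_eq_true, true_and,
      false_and, or_false] at hidx
    rw [e] at hidx
    rw [if_neg (by simp)]
    exact arc_co3 hh (by omega) (by omega) hj
  · have e : ms S 3 = S.m4 := rfl
    simp only [Fin.reduceFinMk, Fin.isValue, ne_eq, Fin.reduceEq, not_false_eq_true, true_and,
      false_and, or_false] at hidx
    rw [e] at hidx
    rw [if_pos (by simp)]
    exact arc_co1 hh (by omega) (by omega) hj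

/-- the vertices of a side in coordinates -/
lemma wv_line {s : Cell × ℤ} {p : ℤ × ℤ} (h1 : cr (s.2 + 1) p = cr (s.2 + 1) (wv h s 0))
    (h2 : cr s.2 (wv h s 0) ≤ cr s.2 p) (h3 : cr s.2 p ≤ cr s.2 (wv h s 0) + 2 * h) :
    ∃ j ≤ h, p = wv h s j := by
  have p1 := cr_par s.2 p
  have p2 := cr_par s.2 (wv h s 0)
  set j := ((cr s.2 p - cr s.2 (wv h s 0)) / 2).toNat with hj
  refine ⟨j, by omega, ?_⟩
  have e : wv h s j = pk s.2 (wv h s 0) j := by
    unfold pk wv
    refine Prod.ext ?_ ?_ <;> simp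
  obtain ⟨g1, g2⟩ := pk_cr s.2 (wv h s 0) j
  rw [e]
  have g3 : cr s.2 (pk s.2 (wv h s 0) j) = cr s.2 p := by omega
  rw [← h1] at g2
  refine Prod.ext ?_ ?_ <;>
  · rcases cr_all s.2 with ⟨-, a, b⟩ | ⟨-, a, b⟩ | ⟨-, a, b⟩ | ⟨-, a, b⟩ <;>
    rw [a, a] at g3 <;> rw [b, b] at g2 <;> omega

/-- the wired labels near the mark are connected to the arc -/
theorem W0_near_hm (hh : 0 < h) (m : Fin 4) {y z : ℤ × ℤ} (hu : IsUnit4 (z - y))
    (hW : y + z ∈ W0 S h) (hl : y + z ∈ BR (mw S h m) (h - 1)) : Co (W0 S h) y (hm S h m) := by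
  obtain ⟨i, hi, hLY⟩ := mem_W0.1 hW
  have hs := isSide_side' S.P i
  have hC := cv_mark S m
  unfold mw at hl
  obtain ⟨g1, g2⟩ := hC.LY_near hh hs hLY hl
  have hsub : LY (2 * h) (S.P.side i) ⊆ W0 S h := W0_LY hi
  obtain ⟨i1, i2⟩ := BR_ends hu hl
  rw [inR_iff] at i1 i2
  set w := wv h (S.P.side (ms S m)) 0 with hw
  set s := S.P.side (ms S m) with hsdef
  clear_value w s
  -- a vertex of the label on the wall
  have key : ∃ p, (p = y ∨ p = z) ∧ ∃ j ≤ h, p = wv h (S.P.side i) j := by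
    obtain ⟨u1, u2⟩ := cr_unit s.2 hu
    rcases g2 with ⟨d, e1, e2⟩ | ⟨d, e1, e2⟩
    · rw [cr_add] at e1 e2
      have hside : S.P.side i = (s.1, (S.P.side i).2) := by rw [← g1]
      have hwv : ∀ j, wv h (S.P.side i) j = wv h s j := by
        intro j
        rw [hside]
        exact wv_congr h (by omega) j
      have hp : ∃ p, (p = y ∨ p = z) ∧ cr (s.2 + 1) p = cr (s.2 + 1) w ∧ cr s.2 w ≤ cr s.2 p := by
        by_cases g : cr (s.2 + 1) y = cr (s.2 + 1) w
        · exact ⟨y, Or.inl rfl, g, by omega⟩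
        · exact ⟨z, Or.inr rfl, by omega, by omega⟩
      obtain ⟨p, hp1, hp2, hp3⟩ := hp
      have hp4 : cr s.2 p ≤ cr s.2 w + 2 * h := by
        have hpB : (w.1 - (h - 1) ≤ p.1 ∧ p.1 ≤ w.1 + (h - 1)) ∧ w.2 - (h - 1) ≤ p.2 ∧
            p.2 ≤ w.2 + (h - 1) := by
          rcases hp1 with rfl | rfl <;> omega
        rcases cr_all s.2 with ⟨-, a, b⟩ | ⟨-, a, b⟩ | ⟨-, a, b⟩ | ⟨-, a, b⟩ <;> rw [a, a] <;> omega
      obtain ⟨j, hj, hpj⟩ := wv_line (h := h) (s := s) (p := p) (by rw [hp2, hw])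
        (by rw [← hw]; exact hp3) (by rw [← hw]; exact hp4)
      exact ⟨p, hp1, j, hj, by rw [hwv, hpj]⟩
    · rw [cr_add] at e1 e2
      set s' := S.P.side i with hs'
      have hp : ∃ p, (p = y ∨ p = z) ∧ cr s.2 p = cr s.2 w ∧ cr (s.2 + 1) w ≤ cr (s.2 + 1) p := by
        by_cases g : cr s.2 y = cr s.2 w
        · exact ⟨y, Or.inl rfl, g, by omega⟩
        · exact ⟨z, Or.inr rfl, by omega, by omega⟩
      obtain ⟨p, hp1, hp2, hp3⟩ := hp
      have hpB : (w.1 - (h - 1) ≤ p.1 ∧ p.1 ≤ w.1 + (h - 1)) ∧ w.2 - (h - 1) ≤ p.2 ∧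
          p.2 ≤ w.2 + (h - 1) := by
        rcases hp1 with rfl | rfl <;> omega
      -- the mark is the head of the side
      have hhead : wv h s' h = w := by
        have hh2 : (s.1, s.2) = s := rfl
        have e3 : wv h s' h = wv h (s.1, s.2) 0 := by
          apply tv_inj
          rw [tv_wv, tv_wv]
          have ht : tail s' + dir s'.2 = tail (s.1, s.2) := by
            rw [show s' = (s.1, s'.2) by rw [← g1]]
            unfold tail
            simp only
            rcases dir_cases s'.2 with ⟨a, b⟩ | ⟨a, b⟩ | ⟨a, b⟩ | ⟨a, b⟩ <;> rw [b]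
            · rw [if_pos a, if_neg (by omega), if_pos (by omega)]
            · rw [if_neg (by omega), if_pos a, if_neg (by omega), if_neg (by omega),
                if_pos (by omega)]
              refine Prod.ext ?_ ?_ <;> simp
            · rw [if_neg (by omega), if_neg (by omega), if_pos a, if_neg (by omega),
                if_neg (by omega), if_neg (by omega)]
              refine Prod.ext ?_ ?_ <;> simp
            · rw [if_neg (by omega), if_neg (by omega), if_neg (by omega), if_pos (by omega)]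
              refine Prod.ext ?_ ?_ <;> simp
          rw [← ht]
          refine Prod.ext ?_ ?_ <;> simp <;> ring
        rw [e3, hh2, ← hw]
      have hcr : (∀ v, cr (s'.2 + 1) v = cr s.2 v) ∧ ∀ v, cr s'.2 v = -cr (s.2 + 1) v := by
        have d1 : dir (s'.2 + 1) = dir s.2 := dir_congr (by omega)
        have d2 : dir s'.2 = - dir (s.2 + 1) := by
          rw [← dir_pred]
          exact dir_congr (by omega)
        refine ⟨fun v => ?_, fun v => ?_⟩
        · unfold cr
          rw [d1]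
        · unfold cr
          rw [d2]
          simp only [Prod.fst_neg, Prod.snd_neg]
          ring
      have e5 : wv h s' h = pk s'.2 (wv h s' 0) h := by
        unfold pk wv
        refine Prod.ext ?_ ?_ <;> simp
      obtain ⟨q1, q2⟩ := pk_cr s'.2 (wv h s' 0) h
      rw [← e5, hhead] at q1 q2
      rw [hcr.2 w] at q1
      rw [hcr.1 w] at q2
      have hp4 : cr (s.2 + 1) p ≤ cr (s.2 + 1) w + 2 * h := by
        rcases cr_all s.2 with ⟨-, a, b⟩ | ⟨-, a, b⟩ | ⟨-, a, b⟩ | ⟨-, a, b⟩ <;> rw [b, b] <;> omega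
      obtain ⟨j, hj, hpj⟩ := wv_line (h := h) (s := s') (p := p) (by rw [hcr.1 p, hp2, q2])
        (by rw [hcr.2 p]; omega) (by rw [hcr.2 p]; omega)
      exact ⟨p, hp1, j, hj, hpj⟩
  obtain ⟨p, hp, j, hj, hpj⟩ := key
  have hend : Co (W0 S h) p (hm S h m) := by
    rw [hsdef] at g1 g2
    rw [hpj]
    refine near_side hh m hi g1 ?_ hj
    rcases g2 with g2 | g2
    · exact Or.inl g2.1
    · exact Or.inr g2.1
  rcases hp with rfl | rfl
  · exact hend
  · exact (show Co (W0 S h) y p from Relation.ReflTransGen.single ⟨hu, hW⟩).trans hend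

/-- two vertices of the boundary walk are far apart -/
theorem wv_far (hh : 0 < h) {i j : ℕ} (hi : i < S.P.N) (hj : j < S.P.N) (hij : i ≠ j) :
    Far (wv h (S.P.side i) 0) h (wv h (S.P.side j) 0) := by
  have hz : (0 : ℤ) < h := by exact_mod_cast hh
  have hne : tail (S.P.side j) ≠ tail (S.P.side i) := by
    intro h1
    have h2 := Pool.Agent.Q1.M4.tail_inj S.P.good (isSide_side' S.P j) (isSide_side' S.P i) h1
    exact hij (side_inj (S := S) hj hi h2.1 h2.2).symm
  set D1 := (tail (S.P.side j)).1 - (tail (S.P.side i)).1 with hD1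
  set D2 := (tail (S.P.side j)).2 - (tail (S.P.side i)).2 with hD2
  have e1 : (wv h (S.P.side j) 0).1 - (wv h (S.P.side i) 0).1 = h * (D1 - D2) := by
    unfold wv
    simp only [Nat.cast_zero, zero_mul, add_zero]
    rw [hD1, hD2]
    ring
  have e2 : (wv h (S.P.side j) 0).2 - (wv h (S.P.side i) 0).2 = h * (D1 + D2) := by
    unfold wv
    simp only [Nat.cast_zero, zero_mul, add_zero]
    rw [hD1, hD2]
    ring
  unfold Far
  rw [e1, e2, abs_mul, abs_mul, abs_of_pos hz]
  have hD : D1 - D2 ≠ 0 ∨ D1 + D2 ≠ 0 := by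
    by_contra hcon
    push Not at hcon
    apply hne
    refine Prod.ext ?_ ?_ <;> omega
  rcases hD with hD | hD
  · left
    have : 1 ≤ |D1 - D2| := Int.one_le_abs hD
    nlinarith
  · right
    have : 1 ≤ |D1 + D2| := Int.one_le_abs hD
    nlinarith

/-- the other wired arc is far -/
theorem om_far (hh : 0 < h) (m : Fin 4) : Far (mw S h m) h (om S h m) := by
  have h02 := S.h02
  have h23 := S.h23
  have h34 := S.h34
  have hmN := S.P.hmN
  have hm4 : S.m4 = S.P.m := rfl
  have hN := ms_lt S m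
  unfold mw om
  fin_cases m
  · rw [if_pos (by simp)]
    exact wv_far hh hN (by omega : S.m3 < S.P.N) (by show 0 ≠ S.m3; omega)
  · rw [if_neg (by simp)]
    exact wv_far hh hN (by omega : 0 < S.P.N) (by show S.m2 ≠ 0; omega)
  · rw [if_neg (by simp)]
    exact wv_far hh hN (by omega : 0 < S.P.N) (by show S.m3 ≠ 0; omega)
  · rw [if_pos (by simp)]
    exact wv_far hh hN (by omega : S.m3 < S.P.N) (by show S.m4 ≠ S.m3; omega)

/-- the labels of a corner are edges at its vertex -/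
lemma lab_edge (z : ℤ × ℤ) : ∃ y, IsUnit4 (y - vx z) ∧ lab z = vx z + y := by
  refine ⟨vx z + dir (ty z - 1), ?_, ?_⟩
  · rw [add_sub_cancel_left]; exact isUnit4_dir _
  · have := lab_oc (vx z) (ty z)
    rw [← eq_oc z] at this
    rw [this]
    unfold ql
    rw [add_assoc]

lemma plab_edge (z : ℤ × ℤ) : ∃ y, IsUnit4 (y - vx z) ∧ plab z = vx z + y := by
  refine ⟨vx z + dir (ty z + 2), ?_, ?_⟩
  · rw [add_sub_cancel_left]; exact isUnit4_dir _
  · have := plab_oc (vx z) (ty z)
    rw [← eq_oc z] at this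
    rw [this]
    unfold ql
    rw [add_assoc]

/-- **the open case at all four marks** -/
theorem openCase (S : Shape) {h : ℕ} (hh : 10 ≤ h) (m : Fin 4) : OpenCase S h m := by
  intro ω hω ρ z hρ hz hN hT hC
  have h0 : 0 < h := by omega
  have hC' : Co (ω ∪ W0 S h) (vx z) (om S h m) := by
    unfold om
    by_cases g : m = 0 ∨ m = 3
    · rw [if_pos g] at hC ⊢; exact hC
    · rw [if_neg g] at hC ⊢; exact hC
  have hno : ¬ Co (ω ∪ W0 S h) (vx z) (hm S h m) := by
    intro g
    apply hT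
    unfold TT
    unfold om at hC'
    unfold hm at g
    by_cases g3 : m = 0 ∨ m = 3
    · rw [if_pos g3] at hC' g
      exact hC'.symm.trans g
    · rw [if_neg g3] at hC' g
      exact g.symm.trans hC'
  have hfar : Far (mw S h m) (h - 2) (om S h m) := by
    have := om_far (S := S) h0 m
    unfold Far at this ⊢
    omega
  -- the vertex lies in the quadrant
  have hEn : ∀ l, l ∈ BR (mw S h m) h → (l ∈ EE S h ↔ dK (mk S m) (mw S h m) l) :=
    fun l hl => (cv_mark S m).mem_TL h0 hl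
  have hedge : ∃ y, IsUnit4 (y - vx z) ∧ vx z + y ∈ EE S h := by
    rcases hz with g | g
    · obtain ⟨y, g1, g2⟩ := lab_edge z
      exact ⟨y, g1, g2 ▸ g⟩
    · obtain ⟨y, g1, g2⟩ := plab_edge z
      exact ⟨y, g1, g2 ▸ g⟩
  have hquad : cr (mk S m) (mw S h m) ≤ cr (mk S m) (vx z) ∧
      cr (mk S m + 1) (mw S h m) ≤ cr (mk S m + 1) (vx z) := by
    obtain ⟨y, g1, g2⟩ := hedge
    have hB : vx z + y ∈ BR (mw S h m) h := by
      have i1 := unit_cases g1
      unfold Near at hN
      rw [abs_le, abs_le] at hN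
      rw [mem_BR]
      simp only [Prod.fst_add, Prod.snd_add]
      omega
    exact (dK_ends g1 ((hEn _ hB).1 g2)).1
  have hstep : ∀ a b, Ad (ω ∪ W0 S h) a b → ((cr (mk S m) (mw S h m) ≤ cr (mk S m) a ∧
      cr (mk S m + 1) (mw S h m) ≤ cr (mk S m + 1) a) ∧ ¬ Co (ω ∪ W0 S h) a (hm S h m)) →
      ¬ Far (mw S h m) (h - 2) a → a + b ∈ ω ∧ dK (mk S m) (mw S h m) (a + b) ∧
      (¬ Far (mw S h m) (h - 2) b → ((cr (mk S m) (mw S h m) ≤ cr (mk S m) b ∧
      cr (mk S m + 1) (mw S h m) ≤ cr (mk S m + 1) b) ∧ ¬ Co (ω ∪ W0 S h) b (hm S h m))) := by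
    intro a b hab hX hF
    have hB : a + b ∈ BR (mw S h m) (h - 1) := by
      have i1 := unit_cases hab.1
      unfold Far at hF
      rw [le_abs, le_abs] at hF
      rw [mem_BR]
      simp only [Prod.fst_add, Prod.snd_add]
      omega
    have hnW : a + b ∉ W0 S h := fun g =>
      hX.2 ((W0_near_hm h0 m hab.1 g hB).mono subset_union_right)
    have hω' : a + b ∈ ω := (mem_union.1 hab.2).resolve_right hnW
    have hd := (hEn _ (BR_mono (by omega) hB)).1 (hω hω')
    refine ⟨hω', hd, fun _ => ⟨(dK_ends hab.1 hd).2, fun g => hX.2 ?_⟩⟩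
    exact (show Co (ω ∪ W0 S h) a b from Relation.ReflTransGen.single hab).trans g
  obtain ⟨v', hv', hco⟩ := conf hstep ⟨hquad, hno⟩ hfar hC'
  exact UA_of hρ hN hv' hco

end Pool.Agent.H42.FM
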